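import Mathlib

/-! The arithmetic of the comparison of the valuations. -/

set_option autoImplicit false

namespace Pool.Agent.H840.MX

variable {c k m n s t δ ε : ℝ}

/-- at one of the eleven points -/
theorem ar_pt (hn : 0 ≤ n) (hs : 0 < s) (ht : 0 < t) (ha : 3 * c < k + 3)
    (hm : 0 ≤ m) (hb : 4 * c < k + m + 4) (hd : c < m + 2 + δ) :
    (s ≤ t → c * (3 * n + s) < (k + 3) * n + (m + 1) * s + t + δ * s) ∧
    (t ≤ s → s ≤ n + t → c * (3 * n + s) < (k + 3) * n + (m + 1) * s + t + δ * t) ∧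
    (n + t ≤ s → c * (4 * n + t) < (k + 3) * n + (m + 1) * s + t + δ * t) := by
  refine ⟨fun h => ?_, fun h h' => ?_, fun h => ?_⟩
  · nlinarith [mul_nonneg hn (sub_nonneg.2 ha.le), mul_pos hs (sub_pos.2 hd)]
  · nlinarith [mul_nonneg (sub_nonneg.2 h') (sub_nonneg.2 ha.le),
      mul_nonneg (sub_nonneg.2 h) (sub_nonneg.2 hb.le), mul_pos ht (sub_pos.2 hd)]
  · nlinarith [mul_nonneg hn (sub_nonneg.2 hb.le), mul_pos ht (sub_pos.2 hd),
      mul_nonneg (sub_nonneg.2 h) hm]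

/-- at the twelfth point -/
theorem ar_p (hn : 0 ≤ n) (hs : 0 < s) (ht : 0 < t) (ha : 3 * c < k + 3)
    (hm : 0 ≤ m) (hb : 4 * c < k + m + 4) (hε : 0 ≤ ε) (hd : 5 * c < k + 6 + 2 * m + ε) :
    (s ≤ 2 * t → s ≤ 2 * n →
      c * (2 * (3 * n + s)) < 2 * (k + 3) * n + 2 * (m + 1) * s + 2 * t + ε * s) ∧
    (2 * t ≤ s → s ≤ n + t →
      c * (2 * (3 * n + s)) < 2 * (k + 3) * n + 2 * (m + 1) * s + 2 * t + ε * (2 * t)) ∧
    (t ≤ n → n + t ≤ s →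
      c * (2 * (4 * n + t)) < 2 * (k + 3) * n + 2 * (m + 1) * s + 2 * t + ε * (2 * t)) ∧
    (n ≤ t → 2 * n ≤ s →
      c * (2 * (5 * n)) < 2 * (k + 3) * n + 2 * (m + 1) * s + 2 * t + ε * (2 * n)) := by
  refine ⟨fun h h' => ?_, fun h h' => ?_, fun h h' => ?_, fun h h' => ?_⟩
  · nlinarith [mul_nonneg (sub_nonneg.2 h') (sub_nonneg.2 ha.le), mul_pos hs (sub_pos.2 hd)]
  · nlinarith [mul_nonneg (sub_nonneg.2 h') (sub_nonneg.2 ha.le),
      mul_nonneg (sub_nonneg.2 h) (sub_nonneg.2 hb.le), mul_pos ht (sub_pos.2 hd)]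
  · nlinarith [mul_nonneg (sub_nonneg.2 h) (sub_nonneg.2 hb.le), mul_pos ht (sub_pos.2 hd),
      mul_nonneg (sub_nonneg.2 h') hm]
  · rcases hn.eq_or_lt with h0 | h0
    · subst h0
      nlinarith [mul_nonneg hm hs.le]
    · nlinarith [mul_pos h0 (sub_pos.2 hd), mul_nonneg (sub_nonneg.2 h') hm]

/-- away from the twelve points -/
theorem ar_0 (hn : 0 ≤ n) (hs : 0 < s) (ha : 3 * c < k + 3)
    (hm : 0 ≤ m) (hb : 4 * c < k + m + 4) :
    (s ≤ n → c * (3 * n + s) < (k + 3) * n + (m + 1) * s) ∧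
    (n ≤ s → c * (4 * n) < (k + 3) * n + (m + 1) * s) := by
  refine ⟨fun h => ?_, fun h => ?_⟩
  · nlinarith [mul_nonneg (sub_nonneg.2 h) (sub_nonneg.2 ha.le), mul_pos hs (sub_pos.2 hb)]
  · rcases hn.eq_or_lt with h0 | h0
    · subst h0
      nlinarith [mul_nonneg hm hs.le]
    · nlinarith [mul_pos h0 (sub_pos.2 hb), mul_nonneg (sub_nonneg.2 h) hm]

end Pool.Agent.H840.MX
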