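import Pool.Agent.H840.MX.Val

/-! The centre of the valuation. -/

set_option autoImplicit false

namespace Pool.Agent.H840.MX

open MvPolynomial Pool.Agent.T2H40.MI

variable {v : AddValuation S ℕ∞} {F g : S} {Q : Fin 12 → Fin 3 → ℂ}

/-- `v` is centred at the point `q` -/
def Centre (v : AddValuation S ℕ∞) (n : ℕ) (q : Fin 3 → ℂ) : Prop :=
  ∀ (h : S) (d : ℕ), h.IsHomogeneous d → eval q h ≠ 0 → v h = (d * n : ℕ)

theorem exists_centre (hVN : S_VN) (hTRV : S_TRV) (T : Twelve F g Q) {n s t : ℕ} (hn : IsMin v n)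
    (hs : v F = (3 * n + s : ℕ)) (ht : v g = (4 * n + t : ℕ)) (hs0 : 0 < s) (ht0 : 0 < t) :
    ∃ i, Centre v n (Q i) := by
  obtain ⟨q, hq, hq'⟩ := hVN v n hn.1 hn.2
    {h | ∃ d, h.IsHomogeneous d ∧ ((d * n : ℕ) : ℕ∞) < v h} (fun h hh => hh)
  have hF : eval q F = 0 := hq' _ ⟨3, T.hF, by
    rw [hs]
    exact_mod_cast (by omega)⟩
  have hg : eval q g = 0 := hq' _ ⟨4, T.hg, by
    rw [ht]
    exact_mod_cast (by omega)⟩
  obtain ⟨i, c, rfl⟩ := (hTRV F g Q T).1 q hq hF hg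
  have hc : c ≠ 0 := by
    rintro rfl
    exact hq (zero_smul _ _)
  refine ⟨i, fun h d hh h0 => ?_⟩
  by_contra hcon
  have h1 := hq' h ⟨d, hh, lt_of_le_of_ne (hom_le' hn.1 hh) (Ne.symm hcon)⟩
  rw [eval_smul_hom hh] at h1
  exact mul_ne_zero (pow_ne_zero _ hc) h0 h1

/-- a linear form through `a` but not through `b` -/
theorem sep {a b : Fin 3 → ℂ} (ha : a ≠ 0) (hb : ∀ t : ℂ, b ≠ t • a) :
    ∃ r : Fin 3 → ℂ, r ⬝ᵥ a = 0 ∧ r ⬝ᵥ b ≠ 0 := by
  by_contra hcon
  push Not at hcon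
  have h0 := hcon ![0, a 2, -a 1] (by simp [dotProduct, Fin.sum_univ_three]; ring)
  have h1 := hcon ![-a 2, 0, a 0] (by simp [dotProduct, Fin.sum_univ_three]; ring)
  have h2 := hcon ![a 1, -a 0, 0] (by simp [dotProduct, Fin.sum_univ_three]; ring)
  simp [dotProduct, Fin.sum_univ_three] at h0 h1 h2
  obtain ⟨i, hi⟩ := Function.ne_iff.1 ha
  apply hb (b i / a i)
  simp only [Pi.zero_apply] at hi
  funext j
  rw [Pi.smul_apply, smul_eq_mul]
  field_simp
  fin_cases i <;> fin_cases j <;> simp only [Fin.zero_eta, Fin.mk_one, Fin.reduceFinMk]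
  · linear_combination -h2
  · linear_combination h1
  · linear_combination h2
  · linear_combination -h0
  · linear_combination -h1
  · linear_combination h0

theorem exists_away {a : Fin 3 → ℂ} (ha : a ≠ 0) : ∃ r : Fin 3 → ℂ, r ⬝ᵥ a ≠ 0 := by
  obtain ⟨i, hi⟩ := Function.ne_iff.1 ha
  exact ⟨Pi.single i 1, by simpa using hi⟩

theorem centre_prod {n : ℕ} {q : Fin 3 → ℂ} (hc : Centre v n q) {ι : Type} (A : Finset ι)
    (r : ι → Fin 3 → ℂ) (hr : ∀ i ∈ A, r i ⬝ᵥ q ≠ 0) :
    v (∏ i ∈ A, lin (r i)) = (A.card * n : ℕ) :=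
  hc _ _ (hom_prod A r) (by
    rw [map_prod]
    exact Finset.prod_ne_zero_iff.2 fun i hi => by
      rw [eval_lin]
      exact hr i hi)

/-- linear forms through the centre -/
theorem lin_centre (hNOE : S_NOE) (T : Twelve F g Q) {n s t : ℕ} (hn : IsMin v n)
    (hs : v F = (3 * n + s : ℕ)) (ht : v g = (4 * n + t : ℕ)) {i : Fin 12}
    (hc : Centre v n (Q i)) {r : Fin 3 → ℂ} (hr : r ⬝ᵥ Q i = 0) :
    ((n + min s t : ℕ) : ℕ∞) ≤ v (lin r) := by
  classical
  have hsep : ∀ j, ∃ l : Fin 3 → ℂ, l ⬝ᵥ Q j = 0 ∧ (j ≠ i → l ⬝ᵥ Q i ≠ 0) := by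
    intro j
    by_cases hj : j = i
    · exact ⟨0, zero_dotProduct _, fun h => absurd hj h⟩
    · obtain ⟨l, h1, h2⟩ := sep (T.ne j) (T.diff i j (Ne.symm hj))
      exact ⟨l, h1, fun _ => h2⟩
  choose l hl1 hl2 using hsep
  obtain ⟨a, b, hab, ha, ha3, hb, hb4⟩ := hNOE F g Q T 12
    (lin r * ∏ j ∈ Finset.univ.erase i, lin (l j)) (by
      have h1 := (lin_hom r).mul (hom_prod (Finset.univ.erase i) l)
      rw [Finset.card_erase_of_mem (Finset.mem_univ i), Finset.card_univ, Fintype.card_fin] at h1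
      exact h1) (fun j => by
      by_cases hj : j = i
      · rw [hj, map_mul, eval_lin, hr, zero_mul]
      · rw [map_mul, map_prod, Finset.prod_eq_zero (Finset.mem_erase.2 ⟨hj, Finset.mem_univ j⟩)
          (by rw [eval_lin, hl1]), mul_zero])
  have h1 : v (lin r * ∏ j ∈ Finset.univ.erase i, lin (l j)) = v (lin r) + (11 * n : ℕ) := by
    rw [v.map_mul, centre_prod hc _ _ (fun j hj => hl2 j (Finset.ne_of_mem_erase hj)),
      Finset.card_erase_of_mem (Finset.mem_univ i), Finset.card_univ, Fintype.card_fin]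
  have h2 : ((12 * n + min s t : ℕ) : ℕ∞) ≤
      v (lin r * ∏ j ∈ Finset.univ.erase i, lin (l j)) := by
    rw [hab]
    apply v.map_le_add
    · rw [v.map_mul, hs]
      refine le_trans ?_ (add_le_add_left (hom_le' hn.1 ha) _)
      norm_cast
      have := min_le_left s t
      omega
    · rw [v.map_mul, ht]
      refine le_trans ?_ (add_le_add_left (hom_le' hn.1 hb) _)
      norm_cast
      have := min_le_right s t
      omega
  rw [h1] at h2
  by_cases htop : v (lin r) = ⊤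
  · rw [htop]
    exact le_top
  · obtain ⟨x, hx⟩ := ENat.ne_top_iff_exists.1 htop
    rw [← hx] at h2 ⊢
    norm_cast at h2 ⊢
    omega

theorem jac_hom {p : Fin 3 → S} {e : Fin 3 → ℕ}
    (h : ∀ i j, (pderiv i (p j)).IsHomogeneous (e j)) : (jac p).IsHomogeneous (∑ j, e j) := by
  rw [jac, Matrix.det_apply]
  refine IsHomogeneous.sum _ _ _ fun σ _ => ?_
  have h1 : (∏ i, Matrix.of (fun i j => pderiv i (p j)) (σ i) i).IsHomogeneous (∑ j, e j) :=
    IsHomogeneous.prod _ _ _ fun i _ => h _ _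
  rcases Int.units_eq_one_or (Equiv.Perm.sign σ) with h | h
  · rw [h, one_smul]
    exact h1
  · rw [h, Units.neg_smul, one_smul]
    exact h1.neg

/-- the log discrepancy -/
theorem logDisc_FG (hTRV : S_TRV) (T : Twelve F g Q) {n s t : ℕ}
    (hs : v F = (3 * n + s : ℕ)) (ht : v g = (4 * n + t : ℕ)) {i : Fin 12}
    (hc : Centre v n (Q i)) : LogDiscGE v (3 * n + s + t) := by
  obtain ⟨r, hr⟩ := exists_away (T.ne i)
  have hdet := (hTRV F g Q T).2 i r hr
  have hF0 : F ≠ 0 := T.irr.ne_zero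
  have hg0 : g ≠ 0 := by
    rintro rfl
    rw [v.map_zero] at ht
    exact ENat.top_ne_natCast _ ht
  have hj : eval (Q i) (jac ![lin r, F, g]) ≠ 0 := by
    intro h0
    apply hdet
    rw [← h0, jac, RingHom.map_det, ← Matrix.det_transpose]
    congr 1
    ext a b
    fin_cases b <;> simp [grad, pderiv_lin]
  have hjh : (jac ![lin r, F, g]).IsHomogeneous 5 := by
    have h1 := jac_hom (p := ![lin r, F, g]) (e := ![0, 2, 3]) (fun i j => by
      fin_cases j
      · exact (lin_hom r).pderiv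
      · exact T.hF.pderiv
      · exact T.hg.pderiv)
    rw [Fin.sum_univ_three] at h1
    exact h1
  have hvj := hc _ _ hjh hj
  have hvr : v (lin r) = (n : ℕ) := by
    have := hc _ _ (lin_hom r) (by rw [eval_lin]; exact hr)
    rwa [one_mul] at this
  refine logDisc_one (jac ![lin r, F, g]) (∏ j, ![lin r, F, g] j) ![lin r, F, g] ?_ ?_ ?_ ?_
  · intro h0
    rw [h0, map_zero] at hj
    exact hj rfl
  · intro j
    fin_cases j
    · refine lin_ne_zero ?_
      rintro rfl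
      rw [zero_dotProduct] at hr
      exact hr rfl
    · exact hF0
    · exact hg0
  · rw [hvj, prod_val, Fin.sum_univ_three]
    simp only [Matrix.cons_val_zero, Matrix.cons_val_one, Matrix.cons_val]
    rw [hvr, hs, ht]
    norm_cast
    omega
  · rw [mul_comm]

end Pool.Agent.H840.MX
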