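import Pool.Graph.R_pool_sql_team_seeded_707910d6.T2H40.MI.Defs

/-!
# Eleven points on a smooth plane cubic

The definitions used in the statement of the theorem on the multiplier ideals of eleven general
points of a smooth plane cubic.
-/

set_option autoImplicit false

namespace Pool.Agent.H840.MX

open MvPolynomial Pool.Agent.T2H40.MI

/-- `F` is a form of degree three and the plane cubic `F = 0` is smooth. -/
structure SmoothCubic (F : MvPolynomial (Fin 3) ℂ) : Prop where
  hom : F.IsHomogeneous 3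
  smooth : ∀ q : Fin 3 → ℂ, q ≠ 0 → eval q F = 0 → ∃ i, eval q (pderiv i F) ≠ 0

/-- The vectors `P 0, …, P 10` are homogeneous coordinates of eleven different points of the smooth
cubic `F = 0`, the vector `p` gives a twelfth point, and the common zeros of the quartic forms in
the ideal of the eleven points are exactly the twelve points: the degree envelope `Z_4` is a set of
twelve points. -/
structure IsGeneral (F : MvPolynomial (Fin 3) ℂ) (P : Fin 11 → Fin 3 → ℂ) (p : Fin 3 → ℂ) :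
    Prop where
  cubic : SmoothCubic F
  ne : ∀ i, P i ≠ 0
  on : ∀ i, eval (P i) F = 0
  diff : ∀ i j, i ≠ j → ∀ t : ℂ, P i ≠ t • P j
  ne' : p ≠ 0
  diff' : ∀ i, ∀ t : ℂ, p ≠ t • P i
  env : ∀ q : Fin 3 → ℂ, q ≠ 0 →
    ((∀ h : MvPolynomial (Fin 3) ℂ, h.IsHomogeneous 4 → h ∈ idealOf (Set.range P) → eval q h = 0) ↔
      (∃ t : ℂ, q = t • p) ∨ ∃ i, ∃ t : ℂ, q = t • P i)

/-- the gradient of `f` at the point `q` -/
noncomputable def grad (f : MvPolynomial (Fin 3) ℂ) (q : Fin 3 → ℂ) : Fin 3 → ℂ :=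
  fun i => eval q (pderiv i f)

/-- the ideal of the origin of `ℂ³` -/
noncomputable def maxIdeal : Ideal (MvPolynomial (Fin 3) ℂ) := Ideal.span (Set.range X)

/-- the ideal `∑_m F ^ m 𝔪 ^ (n - 4 m)` -/
noncomputable def cubicIdeal (F : MvPolynomial (Fin 3) ℂ) (n : ℕ) :
    Ideal (MvPolynomial (Fin 3) ℂ) :=
  ⨆ m : ℕ, Ideal.span {F ^ m} * maxIdeal ^ (n - 4 * m)

/-- the ideal `∑_{a, b} T ^ a I (p) ^ b 𝔪 ^ (n - 3 a - 2 b)`, where `T = 0` is the tangent line of
the cubic `F = 0` at the point `p` -/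
noncomputable def tangentIdeal (F : MvPolynomial (Fin 3) ℂ) (p : Fin 3 → ℂ) (n : ℕ) :
    Ideal (MvPolynomial (Fin 3) ℂ) :=
  ⨆ a : ℕ, ⨆ b : ℕ,
    Ideal.span {lin (grad F p) ^ a} * idealOf {p} ^ b * maxIdeal ^ (n - 3 * a - 2 * b)

end Pool.Agent.H840.MX
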