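import Pool.Agent.H840.MX.Main
import Pool.Agent.H59.MXnul
import Pool.Agent.H671.MXD4
import Pool.Agent.H549.MX.Bez
import Pool.Agent.H32.MXTRV
import Pool.Agent.H967.MX.Noe
import Pool.Agent.H638.MX.CB
import Pool.Agent.H284.MX.G5
import Pool.Agent.H331.MX.Irr
import Pool.Agent.H658.MX.GEX
import Pool.Agent.H94.MX.VB1
import Pool.Agent.H100.MX.VB2
import Pool.Agent.H387.MX_VB3
import Pool.Agent.H840.MX.Jmp

/-! Eleven general points of a smooth cubic. -/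

set_option autoImplicit false

namespace Pool.Agent.H840.MX

open MvPolynomial Pool.Agent.T2H40.MI

theorem TRV : S_TRV := Pool.Agent.H32.MXTRV.pTRV Pool.Agent.H549.MX.BEZ

theorem NOE : S_NOE :=
  Pool.Agent.H967.MX.noe Pool.Agent.H549.MX.BEZ TRV Pool.Agent.H671.MXD4.d4

theorem CB : S_CB := Pool.Agent.H638.MX.CB NOE

theorem exists_data {F : S} {P : Fin 11 → Fin 3 → ℂ} {p : Fin 3 → ℂ} (h : IsGeneral F P p) :
    ∃ g g5 V M, Data F g g5 P p V M := by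
  have hirr := Pool.Agent.H331.MX.irr F h.cubic
  obtain ⟨g, T⟩ := Pool.Agent.H658.MX.gex F P p h hirr
  obtain ⟨g5, h1, h2, h3⟩ := Pool.Agent.H284.MX.g5 NOE F g _ T
  obtain ⟨V, hV⟩ := Pool.Agent.H94.MX.VB1 F T.hF hirr
  have hp : eval p F = 0 := by
    have := T.zeroF (Fin.last 11)
    rwa [Fin.snoc_last] at this
  obtain ⟨M, A⟩ := exists_Frame h.cubic h.ne' hp
  refine ⟨g, g5, V, M, h.cubic, T, h1, fun i => ?_, ?_, hV,
    Pool.Agent.H100.MX.VB2 F V h.cubic hirr hV, Pool.Agent.H387.MXVB3.VB3 F V T.hF hirr hV, A⟩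
  · have := h2 (Fin.castSucc i) (Fin.castSucc_lt_last i).ne
    rwa [Fin.snoc_castSucc] at this
  · rwa [Fin.snoc_last] at h3

theorem multiplier {F : S} {P : Fin 11 → Fin 3 → ℂ} {p : Fin 3 → ℂ} (h : IsGeneral F P p) {c : ℝ}
    (hc : 0 < c) : multiplierIdeal (idealOf (Set.range P)) c =
      ↑(cubicIdeal F (⌊4 * c⌋₊ - 3) ⊓ (⨅ i, idealOf {P i} ^ (⌊c⌋₊ - 1)) ⊓
        tangentIdeal F p (⌊5 * c⌋₊ - 5)) := by
  obtain ⟨g, g5, V, M, D⟩ := exists_data h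
  ext u
  have h1 : u ∈ multiplierIdeal (idealOf (Set.range P)) c ↔ u ∈ Jset F P p c :=
    ⟨fun hu => upper CB D hc hu, fun hu => lower Pool.Agent.H59.MXnul.VN TRV NOE D hc hu⟩
  rw [h1]
  simp only [SetLike.mem_coe, Ideal.mem_inf, Submodule.mem_iInf, Jset, Set.mem_ofPred_eq]
  tauto

theorem jumping_numbers {F : S} {P : Fin 11 → Fin 3 → ℂ} {p : Fin 3 → ℂ}
    (h : IsGeneral F P p) : jumpingNumbers (idealOf (Set.range P)) =
      {c : ℝ | 1 ≤ c ∧ ∃ n : ℕ, 4 * c = n} ∪ {c : ℝ | 11 / 5 ≤ c ∧ ∃ n : ℕ, 5 * c = n} := by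
  obtain ⟨g, g5, V, M, D⟩ := exists_data h
  exact jumping Pool.Agent.H59.MXnul.VN TRV NOE CB Pool.Agent.H840.MXJ.jmp D

end Pool.Agent.H840.MX
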