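import Pool.Agent.H840.MX.Center
import Pool.Graph.R_pool_sql_team_seeded_707910d6.T2H40.MI.Jump

/-! Equations in the frame at a point of the cubic. -/

set_option autoImplicit false

namespace Pool.Agent.H840.MX

open MvPolynomial Pool.Agent.T2H40.MI

/-- a frame at the point `q` of the cubic -/
structure Frame (F : S) (q : Fin 3 → ℂ) (M : Matrix (Fin 3) (Fin 3) ℂ) : Prop where
  det : M.det ≠ 0
  hq : q ≠ 0
  hF : F.IsHomogeneous 3
  zero : eval q F = 0
  h0 : M 0 = grad F q
  h1 : M 1 ⬝ᵥ q = 0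

variable {F g : S} {q : Fin 3 → ℂ} {M : Matrix (Fin 3) (Fin 3) ℂ}

theorem Frame.h0q (A : Frame F q M) : M 0 ⬝ᵥ q = 0 := by
  rw [A.h0, euler A.hF, A.zero, mul_zero]

theorem Frame.h2 (A : Frame F q M) : M 2 ⬝ᵥ q ≠ 0 := by
  intro h2
  apply A.hq
  have h3 : Matrix.mulVec M q = 0 := by
    funext i
    fin_cases i
    · exact A.h0q
    · exact A.h1
    · exact h2
  exact Matrix.eq_zero_of_mulVec_eq_zero A.det h3

theorem Frame.mulVec (A : Frame F q M) : Matrix.mulVec M q = ![0, 0, M 2 ⬝ᵥ q] := by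
  funext i
  fin_cases i
  · exact A.h0q
  · exact A.h1
  · rfl

theorem exists_Frame (hF : SmoothCubic F) (hq : q ≠ 0) (h0 : eval q F = 0) :
    ∃ M, Frame F q M := by
  have h1 : grad F q ≠ 0 := by
    intro h
    obtain ⟨i, hi⟩ := hF.smooth q hq h0
    exact hi (congrFun h i)
  obtain ⟨M, h2, h3, h4⟩ := exists_frame h1 hq (by rw [euler hF.hom, h0, mul_zero])
  exact ⟨M, h2, hq, hF.hom, h0, h3, h4⟩

theorem eval_axis {h : S} {d : ℕ} (hh : h.IsHomogeneous d) (τ : ℂ) :
    eval ![0, 0, τ] h = coeff (Finsupp.single 2 d) h * τ ^ d := by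
  classical
  rw [eval_eq', Finset.sum_eq_single (Finsupp.single 2 d)]
  · rw [Fin.prod_univ_three]
    simp
  · intro m hm hne
    rw [Fin.prod_univ_three]
    simp only [Matrix.cons_val_zero, Matrix.cons_val_one, Matrix.cons_val]
    by_cases h0 : m 0 = 0
    · by_cases h1 : m 1 = 0
      · exfalso
        apply hne
        have h3 := hom_deg hh hm
        ext i
        fin_cases i
        · simpa using h0
        · simpa using h1
        · simp only [Fin.reduceFinMk, Finsupp.single_eq_same]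
          omega
      · rw [zero_pow h1]
        ring
    · rw [zero_pow h0]
      ring
  · intro h0
    rw [notMem_support_iff.1 h0, zero_mul]

/-- the gradient in the frame -/
theorem grad_frame (hM : M.det ≠ 0) (f : S) (q : Fin 3 → ℂ) :
    grad f q = Matrix.vecMul (grad (sub M⁻¹ f) (Matrix.mulVec M q)) M := by
  funext k
  have h1 : pderiv k f = ∑ i, C (M i k) * sub M (pderiv i (sub M⁻¹ f)) := by
    conv_lhs => rw [← sub_inv hM f]
    exact pderiv_sub M k _
  rw [grad, h1, map_sum]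
  simp only [Matrix.vecMul, dotProduct, map_mul, eval_C, eval_sub, grad]
  refine Finset.sum_congr rfl fun i _ => ?_
  ring

theorem coeff_axis {f : S} {d : ℕ} (hf : f.IsHomogeneous (d + 1)) (i : Fin 3) (hi : i ≠ 2) (τ : ℂ) :
    eval ![0, 0, τ] (pderiv i f) = coeff (Finsupp.single 2 d + Finsupp.single i 1) f * τ ^ d := by
  rw [eval_axis (hf.pderiv (i := i)) τ]
  simp only [Nat.add_sub_cancel]
  rw [coeff_pderiv, Finsupp.single_eq_of_ne hi]
  simp

theorem Frame.grad0 (A : Frame F q M) :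
    grad (sub M⁻¹ F) (Matrix.mulVec M q) = ![1, 0, 0] := by
  have h1 := grad_frame A.det F q
  have h2 : M 0 = Matrix.vecMul ![1, 0, 0] M := by
    funext j
    simp [Matrix.vecMul, dotProduct, Fin.sum_univ_three]
  rw [← A.h0, h2] at h1
  have h3 : Matrix.vecMul (![1, 0, 0] - grad (sub M⁻¹ F) (Matrix.mulVec M q)) M = 0 := by
    rw [Matrix.sub_vecMul, sub_eq_zero]
    exact h1
  exact (sub_eq_zero.1 (Matrix.eq_zero_of_vecMul_eq_zero A.det h3)).symm

theorem Frame.coeff0 (A : Frame F q M) :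
    coeff (Finsupp.single 2 2 + Finsupp.single 0 1) (sub M⁻¹ F) ≠ 0 := by
  intro h
  have h1 := congrFun A.grad0 0
  rw [A.mulVec] at h1
  have h2 := coeff_axis (d := 2) (sub_hom M⁻¹ A.hF) 0 (by decide) (M 2 ⬝ᵥ q)
  rw [h, zero_mul] at h2
  rw [grad, h2] at h1
  simp at h1

theorem Frame.coeff1 (A : Frame F q M) :
    coeff (Finsupp.single 2 2 + Finsupp.single 1 1) (sub M⁻¹ F) = 0 := by
  have h1 := congrFun A.grad0 1
  rw [A.mulVec] at h1
  have h2 := coeff_axis (d := 2) (sub_hom M⁻¹ A.hF) 1 (by decide) (M 2 ⬝ᵥ q)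
  rw [grad, h2] at h1
  simp only [Matrix.cons_val_one, Matrix.cons_val_zero, mul_eq_zero, pow_eq_zero_iff,
    ne_eq, OfNat.ofNat_ne_zero, not_false_eq_true] at h1
  rcases h1 with h1 | h1
  · exact h1
  · exact absurd h1 A.h2

/-- monomials of a form which vanishes at the point -/
theorem Frame.supp_zero (A : Frame F q M) {h : S} {d : ℕ} (hh : h.IsHomogeneous d)
    (h0 : eval q h = 0) {m : Fin 3 →₀ ℕ} (hm : m ∈ (sub M⁻¹ h).support) : 1 ≤ m 0 + m 1 := by
  have h2 := pt_one A.det A.hq A.h0q A.h1 (mem_idealOf_hom (Z := {q}) hh (by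
    rintro _ rfl
    exact h0))
  rw [← Nat.cast_one, le_wv] at h2
  have h3 := h2 m hm
  simpa [wt] using h3

theorem Frame.suppF (A : Frame F q M) {m : Fin 3 →₀ ℕ} (hm : m ∈ (sub M⁻¹ F).support) :
    2 ≤ 2 * m 0 + m 1 := by
  have h1 := A.supp_zero A.hF A.zero hm
  by_contra hcon
  have h0 : m 0 = 0 := by omega
  have h1 : m 1 = 1 := by omega
  have h2 := hom_deg (sub_hom M⁻¹ A.hF) hm
  have h3 : m = Finsupp.single 2 2 + Finsupp.single 1 1 := by
    ext i
    fin_cases i
    · simpa using h0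
    · simpa using h1
    · simp only [Fin.reduceFinMk, Finsupp.coe_add, Pi.add_apply, Finsupp.single_eq_same]
      rw [Finsupp.single_eq_of_ne (by decide)]
      omega
  rw [h3] at hm
  exact (mem_support_iff.1 hm) A.coeff1

theorem Frame.wvF (A : Frame F q M) : wv ![3, 2, 1] (sub M⁻¹ F) = 5 := by
  apply le_antisymm
  · refine le_trans (wv_le (mem_support_iff.2 A.coeff0)) ?_
    simp [wt]
  · have h : ((5 : ℕ) : ℕ∞) ≤ wv ![3, 2, 1] (sub M⁻¹ F) := by
      rw [le_wv]
      intro m hm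
      have h1 := A.suppF hm
      have h2 := hom_deg (sub_hom M⁻¹ A.hF) hm
      simp only [wt, Matrix.cons_val_zero, Matrix.cons_val_one, Matrix.cons_val]
      omega
    exact_mod_cast h

theorem Frame.wvF' (A : Frame F q M) : wv ![1, 1, 0] (sub M⁻¹ F) = 1 := by
  apply le_antisymm
  · refine le_trans (wv_le (mem_support_iff.2 A.coeff0)) ?_
    simp [wt]
  · have h : ((1 : ℕ) : ℕ∞) ≤ wv ![1, 1, 0] (sub M⁻¹ F) := by
      rw [le_wv]
      intro m hm
      have h1 := A.supp_zero A.hF A.zero hm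
      simp only [wt, Matrix.cons_val_zero, Matrix.cons_val_one, Matrix.cons_val]
      omega
    exact_mod_cast h

end Pool.Agent.H840.MX
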