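import Pool.Agent.H840.MX.Final
import Pool.Agent.H828.MX.GA
import Pool.Agent.H286.MX.GB
import Pool.Agent.H824.MX.GC
import Pool.Agent.H230.MX.GD

/-! General position is a nonempty open condition. -/

set_option autoImplicit false

namespace Pool.Agent.H840.MX

open MvPolynomial Pool.Agent.T2H40.MI

theorem general {F : S} (hF : SmoothCubic F) :
    ∃ Φ : MvPolynomial (Fin 11 × Fin 3) ℂ,
      (∃ P : Fin 11 → Fin 3 → ℂ, (∀ i, eval (P i) F = 0) ∧ eval (fun x => P x.1 x.2) Φ ≠ 0) ∧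
      ∀ P : Fin 11 → Fin 3 → ℂ, (∀ i, eval (P i) F = 0) → eval (fun x => P x.1 x.2) Φ ≠ 0 →
        ∃ p, IsGeneral F P p := by
  have hirr := Pool.Agent.H331.MX.irr F hF
  obtain ⟨g, P, p, T⟩ := Pool.Agent.H230.MXGD.GD TRV F hF hirr
  obtain ⟨Φ, h1, h2⟩ := Pool.Agent.H824.MX.GC TRV CB F g P p T
  refine ⟨Φ, ⟨P, fun i => ?_, h1⟩, fun P' h3 h4 => ?_⟩
  · have := T.zeroF (Fin.castSucc i)
    rwa [Fin.snoc_castSucc] at this
  · obtain ⟨g', E⟩ := h2 P' h3 h4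
    obtain ⟨p', T'⟩ := Pool.Agent.H828.MX.GA Pool.Agent.H59.MXnul.NUL Pool.Agent.H671.MXD4.d4 F g' P' E
    exact ⟨p', Pool.Agent.H286.MX.gb TRV CB F g' P' p' hF T'⟩

end Pool.Agent.H840.MX
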