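import Pool.Agent.H840.MX.Stm

/-! The ideals in terms of valuations and homogeneous components. -/

set_option autoImplicit false

namespace Pool.Agent.H840.MX

open MvPolynomial Pool.Agent.T2H40.MI

theorem comp_mul_of_le {f a : S} {d k : ℕ} (hf : f.IsHomogeneous d) (h : d ≤ k) :
    homogeneousComponent k (f * a) = f * homogeneousComponent (k - d) a := by
  classical
  let _ := MvPolynomial.gradedAlgebra (σ := Fin 3) (R := ℂ)
  have h1 := DirectSum.coe_decompose_mul_of_left_mem_of_le (homogeneousSubmodule (Fin 3) ℂ)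
    (a := f) (b := a) (i := d) (n := k) hf h
  rw [← decomposition.decompose'_apply, ← decomposition.decompose'_apply]
  exact h1

theorem comp_mul_of_lt {f a : S} {d k : ℕ} (hf : f.IsHomogeneous d) (h : k < d) :
    homogeneousComponent k (f * a) = 0 := by
  classical
  let _ := MvPolynomial.gradedAlgebra (σ := Fin 3) (R := ℂ)
  have h1 := DirectSum.coe_decompose_mul_of_left_mem_of_not_le (homogeneousSubmodule (Fin 3) ℂ)
    (a := f) (b := a) (i := d) (n := k) hf (not_le.2 h)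
  rw [← decomposition.decompose'_apply]
  exact h1

theorem hom_fac {f a u : S} {d k : ℕ} (hf : f.IsHomogeneous d) (hu : u.IsHomogeneous k)
    (h : u = f * a) (hu0 : u ≠ 0) : d ≤ k ∧ u = f * homogeneousComponent (k - d) a := by
  have h1 : homogeneousComponent k u = u := homogeneousComponent_eq_self hu
  have h2 : d ≤ k := by
    by_contra hcon
    rw [h, comp_mul_of_lt hf (not_le.1 hcon)] at h1
    exact hu0 (h.trans h1.symm)
  refine ⟨h2, ?_⟩
  rw [← comp_mul_of_le hf h2, ← h, h1]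

section val

variable {v : AddValuation S ℕ∞}

theorem le_val_span {A : Set S} {n : ℕ∞} (h : ∀ x ∈ A, n ≤ v x) {x : S}
    (hx : x ∈ Ideal.span A) : n ≤ v x := by
  refine Submodule.span_induction (p := fun x _ => n ≤ v x) h ?_ ?_ ?_ hx
  · simp
  · intro x y _ _ hx hy
    exact v.map_le_add hx hy
  · intro a x _ hx
    rw [smul_eq_mul, v.map_mul]
    exact le_trans hx le_add_self

theorem le_val_mul {I J : Ideal S} {a b : ℕ∞} (hI : ∀ x ∈ I, a ≤ v x) (hJ : ∀ x ∈ J, b ≤ v x)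
    {x : S} (hx : x ∈ I * J) : a + b ≤ v x := by
  refine Submodule.mul_induction_on hx ?_ ?_
  · intro y hy z hz
    rw [v.map_mul]
    exact add_le_add (hI y hy) (hJ z hz)
  · intro y z hy hz
    exact v.map_le_add hy hz

theorem le_val_pow {I : Ideal S} {a : ℕ} (h : ∀ x ∈ I, (a : ℕ∞) ≤ v x) (n : ℕ) {x : S}
    (hx : x ∈ I ^ n) : ((n * a : ℕ) : ℕ∞) ≤ v x := by
  induction n generalizing x with
  | zero => simp
  | succ n ih =>
    rw [pow_succ] at hx
    refine le_trans ?_ (le_val_mul (fun y hy => ih hy) h hx)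
    push_cast
    rw [add_mul, one_mul]

theorem le_val_iSup {ι : Sort*} {I : ι → Ideal S} {n : ℕ∞} (h : ∀ i, ∀ x ∈ I i, n ≤ v x) {x : S}
    (hx : x ∈ ⨆ i, I i) : n ≤ v x := by
  refine Submodule.iSup_induction (motive := fun x => n ≤ v x) I hx (fun i x hx => h i x hx) ?_ ?_
  · simp
  · intro x y hx hy
    exact v.map_le_add hx hy

theorem le_val_max (h : ∀ i, (1 : ℕ∞) ≤ v (X i)) (n : ℕ) {x : S} (hx : x ∈ maxIdeal ^ n) :
    (n : ℕ∞) ≤ v x := by
  have h1 := le_val_pow (v := v) (I := maxIdeal) (a := 1) (fun x hx => by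
    rw [Nat.cast_one]
    refine le_val_span ?_ hx
    rintro _ ⟨i, rfl⟩
    exact h i) n hx
  rwa [mul_one] at h1

end val

theorem prod_mem_max (m : Fin 3 → ℕ) :
    ∏ i, (X i : S) ^ m i ∈ maxIdeal ^ (m 0 + m 1 + m 2) := by
  rw [Fin.prod_univ_three, pow_add, pow_add]
  have h : ∀ i, (X i : S) ^ m i ∈ maxIdeal ^ m i := fun i =>
    Ideal.pow_mem_pow (Ideal.subset_span (Set.mem_range_self i)) _
  exact Ideal.mul_mem_mul (Ideal.mul_mem_mul (h 0) (h 1)) (h 2)

theorem hom_mem_max {u : S} {k n : ℕ} (hu : u.IsHomogeneous k) (h : n ≤ k) :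
    u ∈ maxIdeal ^ n := by
  rw [u.as_sum]
  refine Ideal.sum_mem _ fun m hm => ?_
  rw [monomial_eq, Finsupp.prod_fintype _ _ (fun i => by simp)]
  refine Ideal.mul_mem_left _ _ (Ideal.pow_le_pow_right ?_ (prod_mem_max m))
  rw [hom_deg hu hm]
  exact h

section cubic

variable {F : S} {v : AddValuation S ℕ∞}

theorem vb_F (hv : IsVb F v) (hF : F.IsHomogeneous 3) : (4 : ℕ∞) ≤ v F := by
  have h := (hv 4 F).2 (fun k => by
    by_cases hk : k = 3
    · subst hk
      rw [homogeneousComponent_eq_self hF]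
      simp
    · have h1 : homogeneousComponent k F = 0 := by
        rw [homogeneousComponent_of_mem (n := 3) hF, if_neg hk]
      rw [h1]
      exact dvd_zero _)
  exact_mod_cast h

theorem vb_X (hv : IsVb F v) (i : Fin 3) : (1 : ℕ∞) ≤ v (X i) := by
  have h := (hv 1 (X i)).2 (fun k => by
    by_cases hk : k = 1
    · subst hk
      simp
    · have h1 : homogeneousComponent k (X i : S) = 0 := by
        rw [homogeneousComponent_of_mem (n := 1) (isHomogeneous_X ℂ i), if_neg hk]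
      rw [h1]
      exact dvd_zero _)
  exact_mod_cast h

theorem vb_of_mem (hF : (4 : ℕ∞) ≤ v F) (hX : ∀ i, (1 : ℕ∞) ≤ v (X i)) {n : ℕ} {u : S}
    (hu : u ∈ cubicIdeal F n) : (n : ℕ∞) ≤ v u := by
  refine le_val_iSup (fun m x hx => ?_) hu
  have h1 := le_val_mul (v := v) (a := (m * 4 : ℕ)) (b := (n - 4 * m : ℕ))
    (I := Ideal.span {F ^ m}) (J := maxIdeal ^ (n - 4 * m)) (fun x hx => by
      refine le_val_span ?_ hx
      rintro _ rfl
      rw [v.map_pow, nsmul_eq_mul]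
      push_cast
      exact mul_le_mul_right hF _) (fun x hx => le_val_max hX _ hx) hx
  refine le_trans ?_ h1
  norm_cast
  omega

theorem mem_cubic {n : ℕ} {u : S} (hF : F.IsHomogeneous 3)
    (hu : ∀ k, F ^ (n - k) ∣ homogeneousComponent k u) : u ∈ cubicIdeal F n := by
  rw [← sum_homogeneousComponent u]
  refine Ideal.sum_mem _ fun k _ => ?_
  by_cases h0 : homogeneousComponent k u = 0
  · rw [h0]
    exact Ideal.zero_mem _
  obtain ⟨a, ha⟩ := hu k
  obtain ⟨h1, h2⟩ := hom_fac (hF.pow (n - k)) (homogeneousComponent_isHomogeneous k u) ha h0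
  rw [h2]
  refine Ideal.mem_iSup_of_mem (n - k) (Ideal.mul_mem_mul (Ideal.mem_span_singleton_self _) ?_)
  refine hom_mem_max (homogeneousComponent_isHomogeneous _ a) ?_
  omega

theorem mem_cubic_iff (hF : F.IsHomogeneous 3) (hv : IsVb F v) {n : ℕ} {u : S} :
    u ∈ cubicIdeal F n ↔ (n : ℕ∞) ≤ v u :=
  ⟨vb_of_mem (vb_F hv hF) (vb_X hv), fun h => mem_cubic hF ((hv n u).1 h)⟩

end cubic

/-! ### frames -/

theorem exists_frame {r p : Fin 3 → ℂ} (hr : r ≠ 0) (hp : p ≠ 0) (h : r ⬝ᵥ p = 0) :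
    ∃ M : Matrix (Fin 3) (Fin 3) ℂ, M.det ≠ 0 ∧ M 0 = r ∧ M 1 ⬝ᵥ p = 0 := by
  obtain ⟨i, hi⟩ := Function.ne_iff.1 hr
  obtain ⟨j, hj⟩ := Function.ne_iff.1 hp
  let b : Fin 3 → ℂ := Pi.single i 1
  let e : Fin 3 → ℂ := Pi.single j 1
  refine ⟨Matrix.of ![r, ![p 1 * b 2 - p 2 * b 1, p 2 * b 0 - p 0 * b 2, p 0 * b 1 - p 1 * b 0], e],
    ?_, rfl, ?_⟩
  · have h1 : (Matrix.of ![r, ![p 1 * b 2 - p 2 * b 1, p 2 * b 0 - p 0 * b 2,
        p 0 * b 1 - p 1 * b 0], e]).det = (r ⬝ᵥ b) * (p ⬝ᵥ e) - (r ⬝ᵥ p) * (b ⬝ᵥ e) := by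
      simp [Matrix.det_fin_three, dotProduct, Fin.sum_univ_three]
      ring
    rw [h1, h, zero_mul, sub_zero]
    refine mul_ne_zero ?_ ?_
    · simpa [b] using hi
    · simpa [e] using hj
  · simp [dotProduct, Fin.sum_univ_three]
    ring

section tangent

variable {F : S} {p : Fin 3 → ℂ} {M : Matrix (Fin 3) (Fin 3) ℂ}

theorem pt_wt (hM : M.det ≠ 0) (hp : p ≠ 0) (h0 : M 0 ⬝ᵥ p = 0) (h1 : M 1 ⬝ᵥ p = 0) {f : S}
    (hf : f ∈ idealOf {p}) : ((2 : ℕ) : ℕ∞) ≤ wv ![3, 2, 1] (sub M⁻¹ f) := by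
  have h2 := pt_one hM hp h0 h1 hf
  rw [← Nat.cast_one, le_wv] at h2
  rw [le_wv]
  intro m hm
  have h3 := h2 m hm
  simp only [wt, Matrix.cons_val_zero, Matrix.cons_val_one, Matrix.cons_val] at h3 ⊢
  omega

theorem mem_tangent_iff (hM : M.det ≠ 0) (hp : p ≠ 0) (hg : M 0 = grad F p) (h0 : M 0 ⬝ᵥ p = 0)
    (h1 : M 1 ⬝ᵥ p = 0) {n : ℕ} {u : S} :
    u ∈ tangentIdeal F p n ↔ (n : ℕ∞) ≤ wv ![3, 2, 1] (sub M⁻¹ u) := by
  constructor
  · intro hu
    have key : (n : ℕ∞) ≤ ((wv ![3, 2, 1]).comap (sub M⁻¹ : S →+* S)) u := by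
      refine le_val_iSup (fun a x hx => le_val_iSup (fun b x hx => ?_) hx) hu
      have e1 : ∀ x ∈ Ideal.span {lin (grad F p) ^ a}, ((3 * a : ℕ) : ℕ∞) ≤
          ((wv ![3, 2, 1]).comap (sub M⁻¹ : S →+* S)) x := fun x hx => by
        refine le_val_span ?_ hx
        rintro _ rfl
        rw [comap_val, map_pow, ← hg, inv_lin hM, (wv _).map_pow, wv_X, nsmul_eq_mul]
        push_cast
        rw [mul_comm]
      have e2 : ∀ x ∈ idealOf {p} ^ b, ((b * 2 : ℕ) : ℕ∞) ≤
          ((wv ![3, 2, 1]).comap (sub M⁻¹ : S →+* S)) x := fun x hx =>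
        le_val_pow (fun x hx => pt_wt hM hp h0 h1 hx) b hx
      have e3 : ∀ x ∈ maxIdeal ^ (n - 3 * a - 2 * b), ((n - 3 * a - 2 * b : ℕ) : ℕ∞) ≤
          ((wv ![3, 2, 1]).comap (sub M⁻¹ : S →+* S)) x := fun x hx => by
        refine le_val_max (fun i => ?_) _ hx
        rw [comap_val, sub_X, ← Nat.cast_one]
        refine le_wv_lin fun j _ => ?_
        fin_cases j <;> simp
      have e4 := le_val_mul (fun x hx => le_val_mul e1 e2 hx) e3 hx
      refine le_trans ?_ e4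
      norm_cast
      omega
    exact key
  · intro hu
    rw [← sub_inv hM u, Pool.Agent.T2H40.MI.expand]
    refine Ideal.sum_mem _ fun m hm => Ideal.mul_mem_left _ _ ?_
    refine Ideal.mem_iSup_of_mem (m 0) (Ideal.mem_iSup_of_mem (m 1) ?_)
    rw [Fin.prod_univ_three]
    refine Ideal.mul_mem_mul (Ideal.mul_mem_mul ?_ (Ideal.pow_mem_pow (lin_mem h1) _)) ?_
    · rw [← hg]
      exact Ideal.mem_span_singleton_self _
    · refine hom_mem_max ((lin_hom (M 2)).pow (m 2)) ?_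
      have h3 := le_wv.1 hu m hm
      simp only [wt, Matrix.cons_val_zero, Matrix.cons_val_one, Matrix.cons_val] at h3
      omega

end tangent

end Pool.Agent.H840.MX
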