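import Pool.Agent.H840.MX.Frame
import Pool.Agent.H840.MX.Arith

/-! One inclusion, for homogeneous elements. -/

set_option autoImplicit false

namespace Pool.Agent.H840.MX

open MvPolynomial Pool.Agent.T2H40.MI

variable {v : AddValuation S ℕ∞} {F g g5 : S} {P : Fin 11 → Fin 3 → ℂ} {p q : Fin 3 → ℂ}
  {M : Matrix (Fin 3) (Fin 3) ℂ}

theorem fin_goal {I : Ideal S} {c : ℝ} {u f : S} (hf : f ∈ I)
    {a x K : ℕ} (hA : LogDiscGE v a) (hx : v f = x) (hK : v u = K) (h : c * x < K + a) :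
    Goal v I c u := by
  refine ⟨a, hA, f, hf, ?_, ?_⟩
  · rintro rfl
    rw [v.map_zero] at hx
    exact ENat.top_ne_natCast _ hx
  · rw [hx, hK]
    exact h

theorem val_lower {n : ℕ} (hn : IsMin v n) (hM : M.det ≠ 0) {w : S} {e : ℕ}
    (hw : w.IsHomogeneous e) (hw0 : w ≠ 0) {α β : ℕ} (h0 : ((n + α : ℕ) : ℕ∞) ≤ v (lin (M 0)))
    (h1 : ((n + β : ℕ) : ℕ∞) ≤ v (lin (M 1))) :
    ∃ m ∈ (sub M⁻¹ w).support, ((e * n + α * m 0 + β * m 1 : ℕ) : ℕ∞) ≤ v w := by
  have h2 : ((n : ℕ) : ℕ∞) ≤ v (lin (M 2)) := by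
    have := hom_le' hn.1 (lin_hom (M 2))
    rwa [one_mul] at this
  obtain ⟨m, hm, hm'⟩ := exists_le v (fun i => lin (M i)) (inv_ne hM hw0)
    (α := ![n + α, n + β, n]) (by
      intro i
      fin_cases i
      · exact h0
      · exact h1
      · exact h2)
  have e1 : aeval (fun i => lin (M i)) (sub M⁻¹ w) = w := sub_inv hM w
  rw [e1] at hm'
  refine ⟨m, hm, le_trans (le_of_eq ?_) hm'⟩
  rw [← hom_deg (sub_hom _ hw) hm, wt]
  simp only [Matrix.cons_val_zero, Matrix.cons_val_one, Matrix.cons_val]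
  norm_cast
  ring

/-- the valuation of the equation of the tangent line -/
theorem tangent_val (A : Frame F q M) {n s t : ℕ}
    (hs : v F = (3 * n + s : ℕ)) (hc : Centre v n q)
    (h0 : ((n + min s t : ℕ) : ℕ∞) ≤ v (lin (M 0)))
    (h1 : ((n + min s t : ℕ) : ℕ∞) ≤ v (lin (M 1))) :
    ((n + min s (2 * t) : ℕ) : ℕ∞) ≤ v (lin (M 0)) := by
  obtain ⟨c, hcdef⟩ : ∃ c, c = coeff (Finsupp.single 2 2 + Finsupp.single 0 1) (sub M⁻¹ F) :=
    ⟨_, rfl⟩
  have hc0 : c ≠ 0 := by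
    rw [hcdef]
    exact A.coeff0
  have h2 : v (lin (M 2)) = (n : ℕ) := by
    have := hc _ _ (lin_hom (M 2)) (by
      rw [eval_lin]
      exact A.h2)
    rwa [one_mul] at this
  let mm : Fin 3 →₀ ℕ := Finsupp.single 2 2 + Finsupp.single 0 1
  let G : S := sub M⁻¹ F - monomial mm c
  have hG : ∀ m ∈ G.support, 2 ≤ m 0 + m 1 ∧ m 0 + m 1 + m 2 = 3 := by
    intro m hm
    have hne : m ≠ mm := by
      rintro rfl
      rw [mem_support_iff, coeff_sub, coeff_monomial, if_pos rfl] at hm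
      exact hm (by rw [hcdef, sub_self])
    have hm' : m ∈ (sub M⁻¹ F).support := by
      rw [mem_support_iff, coeff_sub, coeff_monomial, if_neg hne.symm, sub_zero] at hm
      exact mem_support_iff.2 hm
    have h3 := A.suppF hm'
    have h4 := A.supp_zero A.hF A.zero hm'
    have h5 := hom_deg (sub_hom M⁻¹ A.hF) hm'
    refine ⟨?_, h5⟩
    by_contra hcon
    apply hne
    have h6 : m 0 = 1 := by omega
    have h7 : m 1 = 0 := by omega
    ext i
    fin_cases i
    · simpa [mm] using h6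
    · simpa [mm] using h7
    · simp only [mm, Fin.reduceFinMk, Finsupp.coe_add, Pi.add_apply, Finsupp.single_eq_same]
      rw [Finsupp.single_eq_of_ne (by decide)]
      omega
  have hsplit : C c * lin (M 0) * lin (M 2) ^ 2 = F - sub M G := by
    have e1 : sub M (monomial mm c) = C c * lin (M 0) * lin (M 2) ^ 2 := by
      rw [monomial_eq, map_mul, sub_C, Finsupp.prod_fintype _ _ (fun i => by simp),
        Fin.prod_univ_three]
      simp only [map_mul, map_pow, sub_X, mm]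
      simp
      ring
    rw [map_sub, sub_inv A.det, e1]
    ring
  have hvG : ((3 * n + min s (2 * t) : ℕ) : ℕ∞) ≤ v (sub M G) := by
    by_cases hG0 : G = 0
    · rw [hG0, map_zero, v.map_zero]
      exact le_top
    obtain ⟨m, hm, hm'⟩ := exists_le v (fun i => lin (M i)) hG0
      (α := ![n + min s t, n + min s t, n]) (by
        intro i
        fin_cases i
        · exact h0
        · exact h1
        · exact h2.ge)
    refine le_trans (Nat.cast_le.2 ?_) hm'
    obtain ⟨h3, h4⟩ := hG m hm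
    simp only [wt, Matrix.cons_val_zero, Matrix.cons_val_one, Matrix.cons_val]
    have h5 : min s (2 * t) ≤ 2 * min s t := by omega
    have h6 : 2 * min s t ≤ (m 0 + m 1) * min s t := Nat.mul_le_mul_right _ h3
    calc 3 * n + min s (2 * t) ≤ (m 0 + m 1 + m 2) * n + (m 0 + m 1) * min s t := by
          rw [h4]
          omega
      _ = (n + min s t) * m 0 + (n + min s t) * m 1 + n * m 2 := by ring
  have hL : ((3 * n + min s (2 * t) : ℕ) : ℕ∞) ≤ v (C c * lin (M 0) * lin (M 2) ^ 2) := by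
    rw [hsplit]
    refine v.map_le_sub ?_ hvG
    rw [hs]
    exact Nat.cast_le.2 (by omega)
  rw [v.map_mul, val_C_mul hc0, v.map_pow, h2] at hL
  by_cases htop : v (lin (M 0)) = ⊤
  · rw [htop]
    exact le_top
  · obtain ⟨x, hx⟩ := ENat.ne_top_iff_exists.1 htop
    rw [← hx, nsmul_eq_mul] at hL
    rw [← hx]
    norm_cast at hL ⊢
    omega

/-- the conditions on a form -/
structure HCond (F : S) (P : Fin 11 → Fin 3 → ℂ) (p : Fin 3 → ℂ) (c : ℝ) (k : ℕ) (u : S) :
    Prop where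
  hom : u.IsHomogeneous k
  ne : u ≠ 0
  B : F ^ (⌊4 * c⌋₊ - 3 - k) ∣ u
  C : ∀ i M, Frame F (P i) M → ((⌊c⌋₊ - 1 : ℕ) : ℕ∞) ≤ wv ![1, 1, 0] (sub M⁻¹ u)
  D : ∀ M, Frame F p M → ((⌊5 * c⌋₊ - 5 : ℕ) : ℕ∞) ≤ wv ![3, 2, 1] (sub M⁻¹ u)

theorem lower_hom (hVN : S_VN) (hTRV : S_TRV) (hNOE : S_NOE) (hS : SmoothCubic F)
    (T : Twelve F g (Fin.snoc (α := fun _ => Fin 3 → ℂ) P p)) (h5 : g5.IsHomogeneous 5)
    (h5P : ∀ i, eval (P i) g5 = 0) (h5p : eval p g5 ≠ 0) {c : ℝ} (hc : 0 < c) {k : ℕ} {u : S}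
    (H : HCond F P p c k u) (hv : IsDivisorial v) : Goal v (idealOf (Set.range P)) c u := by
  classical
  obtain ⟨n, hn⟩ := exists_min hv
  have hF0 : F ≠ 0 := T.irr.ne_zero
  have hg0 : g ≠ 0 := by
    rintro rfl
    exact T.ndvd (dvd_zero _)
  obtain ⟨x, hx⟩ := fin_val hv hF0
  obtain ⟨y, hy⟩ := fin_val hv hg0
  obtain ⟨s, rfl⟩ := Nat.exists_eq_add_of_le (Nat.cast_le.1 (hx ▸ hom_le' hn.1 T.hF))
  obtain ⟨t, rfl⟩ := Nat.exists_eq_add_of_le (Nat.cast_le.1 (hy ▸ hom_le' hn.1 T.hg))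
  obtain ⟨K, hK⟩ := fin_val hv H.ne
  have hPF : ∀ i, eval (P i) F = 0 := fun i => by
    have := T.zeroF (Fin.castSucc i)
    rwa [Fin.snoc_castSucc] at this
  have hPg : ∀ i, eval (P i) g = 0 := fun i => by
    have := T.zerog (Fin.castSucc i)
    rwa [Fin.snoc_castSucc] at this
  have hP0 : ∀ i, P i ≠ 0 := fun i => by
    have := T.ne (Fin.castSucc i)
    rwa [Fin.snoc_castSucc] at this
  have hp0 : p ≠ 0 := by
    have := T.ne (Fin.last 11)
    rwa [Fin.snoc_last] at this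
  have hpF : eval p F = 0 := by
    have := T.zeroF (Fin.last 11)
    rwa [Fin.snoc_last] at this
  have memF : F ∈ idealOf (Set.range P) := mem_idealOf_hom T.hF (by
    rintro _ ⟨i, rfl⟩
    exact hPF i)
  have memg : g ∈ idealOf (Set.range P) := mem_idealOf_hom T.hg (by
    rintro _ ⟨i, rfl⟩
    exact hPg i)
  have memg5 : g5 ∈ idealOf (Set.range P) := mem_idealOf_hom h5 (by
    rintro _ ⟨i, rfl⟩
    exact h5P i)
  -- the factor
  obtain ⟨m, hm⟩ : ∃ m, m = ⌊4 * c⌋₊ - 3 - k := ⟨_, rfl⟩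
  have hB := H.B
  rw [← hm] at hB
  obtain ⟨w', hw'⟩ := hB
  obtain ⟨h3m, hw⟩ := hom_fac (T.hF.pow m) H.hom hw' H.ne
  obtain ⟨w, hwdef⟩ : ∃ w, w = homogeneousComponent (k - 3 * m) w' := ⟨_, rfl⟩
  rw [← hwdef] at hw
  have hwh : w.IsHomogeneous (k - 3 * m) := hwdef ▸ homogeneousComponent_isHomogeneous _ _
  have hw0 : w ≠ 0 := by
    rintro h0
    rw [h0, mul_zero] at hw
    exact H.ne hw
  obtain ⟨W, hW⟩ := fin_val hv hw0
  have hKW : K = m * (3 * n + s) + W := by
    have h1 := congrArg v hw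
    rw [v.map_mul, v.map_pow, hK, hx, hW, nsmul_eq_mul] at h1
    exact_mod_cast h1
  have hWge : (k - 3 * m) * n ≤ W := Nat.cast_le.1 (hW ▸ hom_le' hn.1 hwh)
  obtain ⟨e, he⟩ := Nat.exists_eq_add_of_le h3m
  have he' : k - 3 * m = e := by omega
  rw [he'] at hWge hwh
  -- the inequalities
  have h4c : (⌊4 * c⌋₊ : ℝ) ≤ k + m + 3 := by
    have : ⌊4 * c⌋₊ ≤ k + m + 3 := by omega
    exact_mod_cast this
  have hb : 4 * c < k + m + 4 := by
    have := Nat.lt_floor_add_one (4 * c)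
    linarith
  have h3m' : (3 : ℝ) * m ≤ k := by exact_mod_cast h3m
  have ha : 3 * c < k + 3 := by linarith
  have hke : (k : ℝ) = 3 * m + e := by
    rw [he]
    push_cast
    ring
  have hKr : (K : ℝ) = m * (3 * n + s) + W := by
    rw [hKW]
    push_cast
    ring
  have hWr : (e : ℝ) * n ≤ W := by exact_mod_cast hWge
  have hn0 : (0 : ℝ) ≤ n := Nat.cast_nonneg n
  have hm0 : (0 : ℝ) ≤ m := Nat.cast_nonneg m
  rcases Nat.eq_zero_or_pos s with hs0 | hs0
  · subst hs0
    rcases Nat.eq_zero_or_pos n with hn1 | hn1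
    · subst hn1
      refine fin_goal memF (logDisc_pos hv) hx hK ?_
      simp only [mul_zero, Nat.add_zero, Nat.cast_zero, Nat.cast_one]
      positivity
    · refine fin_goal memF (logDisc_three hn.1) hx hK ?_
      have hn2 : (0 : ℝ) < n := by exact_mod_cast hn1
      push_cast
      simp only [Nat.cast_zero, add_zero] at hKr
      rw [hKr]
      nlinarith [mul_pos hn2 (sub_pos.2 ha)]
  have hsr : (0 : ℝ) < s := by exact_mod_cast hs0
  rcases Nat.eq_zero_or_pos t with ht0 | ht0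
  · subst ht0
    have hA := logDisc_F hS hVN hn hx
    obtain ⟨h1, h2⟩ := ar_0 (c := c) (k := k) (m := m) hn0 hsr ha hm0 hb
    rcases le_total s n with hsn | hsn
    · refine fin_goal memF hA hx hK ?_
      have := h1 (by exact_mod_cast hsn)
      push_cast
      rw [hKr]
      nlinarith
    · refine fin_goal memg hA hy hK ?_
      have := h2 (by exact_mod_cast hsn)
      push_cast
      rw [hKr]
      nlinarith
  have htr : (0 : ℝ) < t := by exact_mod_cast ht0
  obtain ⟨i, hi⟩ := exists_centre hVN hTRV T hn hx hy hs0 ht0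
  have hA := logDisc_FG hTRV T hx hy hi
  induction i using Fin.lastCases with
  | last =>
    rw [Fin.snoc_last] at hi
    obtain ⟨M, A⟩ := exists_Frame hS hp0 hpF
    have hl : ∀ r : Fin 3 → ℂ, r ⬝ᵥ p = 0 → ((n + min s t : ℕ) : ℕ∞) ≤ v (lin r) := by
      intro r hr
      refine lin_centre hNOE T hn hx hy (i := Fin.last 11) ?_ ?_
      · rw [Fin.snoc_last]
        exact hi
      · rw [Fin.snoc_last]
        exact hr
    have h0 := hl _ A.h0q
    have h1 := hl _ A.h1
    have h0' := tangent_val A hx hi h0 h1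
    obtain ⟨m', hm', hm''⟩ := val_lower hn A.det hwh hw0 h0' h1
    rw [hW] at hm''
    have h2 : e * n + min s (2 * t) * m' 0 + min s t * m' 1 ≤ W := Nat.cast_le.1 hm''
    have hD := H.D M A
    rw [hw, map_mul, map_pow, (wv _).map_mul, (wv _).map_pow, A.wvF] at hD
    have h3 := le_trans hD (add_le_add_right (wv_le hm') _)
    rw [nsmul_eq_mul] at h3
    have h4 : ⌊5 * c⌋₊ - 5 ≤ m * 5 + wt ![3, 2, 1] m' := by exact_mod_cast h3
    have h6 := hom_deg (sub_hom M⁻¹ hwh) hm'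
    simp only [wt, Matrix.cons_val_zero, Matrix.cons_val_one, Matrix.cons_val] at h4
    have h7 : ⌊5 * c⌋₊ ≤ k + 5 + 2 * m + (2 * m' 0 + m' 1) := by omega
    have h8 : (⌊5 * c⌋₊ : ℝ) ≤ k + 5 + 2 * m + (2 * m' 0 + m' 1) := by exact_mod_cast h7
    obtain ⟨ε, hε⟩ : ∃ ε : ℕ, ε = 2 * m' 0 + m' 1 := ⟨_, rfl⟩
    have hεr : (ε : ℝ) = 2 * m' 0 + m' 1 := by
      rw [hε]
      push_cast
      ring
    have hd : 5 * c < k + 6 + 2 * m + ε := by
      have := Nat.lt_floor_add_one (5 * c)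
      rw [hεr]
      linarith
    have h9 : 2 * (e * n) + min s (2 * t) * ε ≤ 2 * W := by
      have h10 : min s (2 * t) * m' 1 ≤ 2 * (min s t * m' 1) := by
        rw [← mul_assoc]
        exact Nat.mul_le_mul_right _ (by omega)
      rw [hε, mul_add]
      nlinarith
    have h9r : (2 : ℝ) * (e * n) + (min s (2 * t) : ℕ) * ε ≤ 2 * W := by exact_mod_cast h9
    obtain ⟨a1, a2, a3, a4⟩ := ar_p (c := c) (k := k) (m := m) (ε := ε) hn0 hsr htr ha hm0 hb
      (Nat.cast_nonneg ε) hd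
    have hcase : (s ≤ 2 * t ∧ s ≤ 2 * n) ∨ (2 * t ≤ s ∧ s ≤ n + t) ∨ (t ≤ n ∧ n + t ≤ s) ∨
        (n ≤ t ∧ 2 * n ≤ s) := by omega
    have hv5 : v g5 = (5 * n : ℕ) := hi _ _ h5 h5p
    rcases hcase with ⟨b1, b2⟩ | ⟨b1, b2⟩ | ⟨b1, b2⟩ | ⟨b1, b2⟩
    · refine fin_goal memF hA hx hK ?_
      have h11 := a1 (by exact_mod_cast b1) (by exact_mod_cast b2)
      rw [min_eq_left b1] at h9r
      push_cast
      rw [hKr]
      rw [hke] at h11
      linarith
    · refine fin_goal memF hA hx hK ?_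
      have h11 := a2 (by exact_mod_cast b1) (by exact_mod_cast b2)
      rw [min_eq_right b1] at h9r
      push_cast at h9r ⊢
      rw [hKr]
      rw [hke] at h11
      linarith
    · refine fin_goal memg hA hy hK ?_
      have h11 := a3 (by exact_mod_cast b1) (by exact_mod_cast b2)
      rw [min_eq_right (by omega : 2 * t ≤ s)] at h9r
      push_cast at h9r ⊢
      rw [hKr]
      rw [hke] at h11
      linarith
    · refine fin_goal memg5 hA hv5 hK ?_
      have h11 := a4 (by exact_mod_cast b1) (by exact_mod_cast b2)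
      have h12 : (2 * n : ℝ) * ε ≤ (min s (2 * t) : ℕ) * ε := by
        have : 2 * n * ε ≤ min s (2 * t) * ε := Nat.mul_le_mul_right _ (by omega)
        exact_mod_cast this
      have h13 := (add_le_add_right h12 (2 * ((e : ℝ) * n))).trans h9r
      push_cast
      rw [hKr]
      rw [hke] at h11
      linarith
  | cast i =>
    rw [Fin.snoc_castSucc] at hi
    obtain ⟨M, A⟩ := exists_Frame hS (hP0 i) (hPF i)
    have hl : ∀ r : Fin 3 → ℂ, r ⬝ᵥ P i = 0 → ((n + min s t : ℕ) : ℕ∞) ≤ v (lin r) := by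
      intro r hr
      refine lin_centre hNOE T hn hx hy (i := Fin.castSucc i) ?_ ?_
      · rw [Fin.snoc_castSucc]
        exact hi
      · rw [Fin.snoc_castSucc]
        exact hr
    have h0 := hl _ A.h0q
    have h1 := hl _ A.h1
    obtain ⟨m', hm', hm''⟩ := val_lower hn A.det hwh hw0 h0 h1
    rw [hW] at hm''
    have h2 : e * n + min s t * m' 0 + min s t * m' 1 ≤ W := Nat.cast_le.1 hm''
    have hD := H.C i M A
    rw [hw, map_mul, map_pow, (wv _).map_mul, (wv _).map_pow, A.wvF'] at hD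
    have h3 := le_trans hD (add_le_add_right (wv_le hm') _)
    rw [nsmul_eq_mul] at h3
    have h4 : ⌊c⌋₊ - 1 ≤ m * 1 + wt ![1, 1, 0] m' := by exact_mod_cast h3
    simp only [wt, Matrix.cons_val_zero, Matrix.cons_val_one, Matrix.cons_val] at h4
    obtain ⟨δ, hδ⟩ : ∃ δ : ℕ, δ = m' 0 + m' 1 := ⟨_, rfl⟩
    have h7 : ⌊c⌋₊ ≤ m + 1 + δ := by omega
    have h8 : (⌊c⌋₊ : ℝ) ≤ m + 1 + δ := by exact_mod_cast h7
    have hd : c < m + 2 + δ := by
      have := Nat.lt_floor_add_one c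
      linarith
    have h9 : e * n + min s t * δ ≤ W := by
      rw [hδ, mul_add]
      omega
    have h9r : (e : ℝ) * n + (min s t : ℕ) * δ ≤ W := by exact_mod_cast h9
    obtain ⟨a1, a2, a3⟩ := ar_pt (c := c) (k := k) (m := m) (δ := δ) hn0 hsr htr ha hm0 hb hd
    have hcase : (s ≤ t) ∨ (t ≤ s ∧ s ≤ n + t) ∨ (t ≤ s ∧ n + t ≤ s) := by omega
    rcases hcase with b1 | ⟨b1, b2⟩ | ⟨b1, b2⟩
    · refine fin_goal memF hA hx hK ?_
      have h11 := a1 (by exact_mod_cast b1)
      rw [min_eq_left b1] at h9r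
      push_cast
      rw [hKr]
      rw [hke] at h11
      linarith
    · refine fin_goal memF hA hx hK ?_
      have h11 := a2 (by exact_mod_cast b1) (by exact_mod_cast b2)
      rw [min_eq_right b1] at h9r
      push_cast at h9r ⊢
      rw [hKr]
      rw [hke] at h11
      linarith
    · refine fin_goal memg hA hy hK ?_
      have h11 := a3 (by exact_mod_cast b2)
      rw [min_eq_right b1] at h9r
      push_cast at h9r ⊢
      rw [hKr]
      rw [hke] at h11
      linarith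

end Pool.Agent.H840.MX
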