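import Pool.Agent.H840.MX.Frame

/-! The other inclusion. -/

set_option autoImplicit false

namespace Pool.Agent.H840.MX

open MvPolynomial Pool.Agent.T2H40.MI

variable {F g : S} {P : Fin 11 → Fin 3 → ℂ} {p q : Fin 3 → ℂ} {M : Matrix (Fin 3) (Fin 3) ℂ}

/-- an upper bound of the log discrepancy -/
theorem logDisc_le {V : AddValuation S ℕ∞} {A : ℕ} (hfin : ∀ f, f ≠ 0 → V f ≠ ⊤)
    (hjac : ∀ p : Fin 3 → S, V (p 0) + V (p 1) + V (p 2) ≤ A + V (jac p)) {a : ℕ}
    (ha : LogDiscGE V a) : a ≤ A := by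
  classical
  obtain ⟨T, q, h, p, hq, hp, hh, hid⟩ := ha
  have hid' := logDisc_identity hq hp hid
  have hL : q * ∏ s, ∏ j, p s j ≠ 0 :=
    mul_ne_zero hq (prod_ne _ _ fun s => prod_ne _ _ (hp s))
  obtain ⟨s, hs⟩ : ∃ s, V (h s * jac (p s) * ∏ s' ∈ Finset.univ.erase s, ∏ j, p s' j) ≤
      V (q * ∏ s, ∏ j, p s j) := by
    by_contra hcon
    push Not at hcon
    have h1 := V.map_lt_sum (s := Finset.univ)
      (f := fun s => h s * jac (p s) * ∏ s' ∈ Finset.univ.erase s, ∏ j, p s' j)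
      (hfin _ hL) (fun s _ => hcon s)
    rw [← hid'] at h1
    exact lt_irrefl _ h1
  rw [← Finset.mul_prod_erase Finset.univ (fun s => ∏ j, p s j) (Finset.mem_univ s),
    ← mul_assoc, V.map_mul, V.map_mul (q * ∏ j, p s j)] at hs
  have hR : V (∏ s' ∈ Finset.univ.erase s, ∏ j, p s' j) ≠ ⊤ :=
    hfin _ (prod_ne _ _ fun s => prod_ne _ _ (hp s))
  have hs' : V (h s * jac (p s)) ≤ V (q * ∏ j, p s j) :=
    (ENat.add_le_add_iff_right hR).1 hs
  have hj := hjac (p s)
  rw [Fin.prod_univ_three] at hs'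
  simp only [V.map_mul] at hs'
  have hfq := hfin q hq
  have h0 := hfin _ (hp s 0)
  have h1 := hfin _ (hp s 1)
  have h2 := hfin _ (hp s 2)
  have hhs := hh s
  generalize V (jac (p s)) = J at *
  generalize V (h s) = H at *
  generalize V q = Q at *
  generalize V (p s 0) = P0 at *
  generalize V (p s 1) = P1 at *
  generalize V (p s 2) = P2 at *
  lift Q to ℕ using hfq
  lift P0 to ℕ using h0
  lift P1 to ℕ using h1
  lift P2 to ℕ using h2
  have hH : H ≠ ⊤ := by
    intro h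
    rw [h, top_add] at hs'
    exact absurd hs' (by norm_cast)
  have hJ : J ≠ ⊤ := by
    intro h
    rw [h, add_top] at hs'
    exact absurd hs' (by norm_cast)
  lift H to ℕ using hH
  lift J to ℕ using hJ
  norm_cast at *
  omega

theorem val_of_mem {V : AddValuation S ℕ∞} (hV : IsDivisorial V) {A N : ℕ}
    (hA : ∀ a, LogDiscGE V a → a ≤ A) {I : Ideal S} (hN : ∀ f ∈ I, (N : ℕ∞) ≤ V f) {c : ℝ}
    (hc : 0 < c) {u : S} (hu : u ∈ multiplierIdeal I c) (hu0 : u ≠ 0) :
    ∃ K : ℕ, V u = K ∧ c * N < K + A := by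
  obtain ⟨a, ha, f, hf, hf0, hlt⟩ := (hu.resolve_left hu0) V hV
  obtain ⟨K, hK⟩ := fin_val hV hu0
  obtain ⟨x, hx⟩ := fin_val hV hf0
  refine ⟨K, hK, ?_⟩
  have h1 := hN f hf
  rw [hx] at h1
  have h2 : (N : ℝ) ≤ x := by exact_mod_cast h1
  have h3 : (a : ℝ) ≤ A := by exact_mod_cast hA a ha
  rw [hx, hK, ENat.toNat_natCast, ENat.toNat_natCast] at hlt
  nlinarith

theorem comp_zero {f : S} (hf : f ∈ idealOf (Set.range P)) (i : Fin 11) (k : ℕ) :
    eval (P i) (homogeneousComponent k f) = 0 :=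
  eval_component (fun t => mem_idealOf.1 hf (P i) ⟨i, rfl⟩ t) k

/-- the components of low degree -/
theorem comp_low (hCB : S_CB) (T : Twelve F g (Fin.snoc (α := fun _ => Fin 3 → ℂ) P p)) {f : S}
    (hf : f ∈ idealOf (Set.range P)) {k : ℕ} (hk : k ≤ 4) :
    ∃ (a : S) (β : ℂ), homogeneousComponent k f = a * F + C β * g ∧ (β ≠ 0 → k = 4) := by
  refine hCB F g _ T k _ hk (homogeneousComponent_isHomogeneous k f) fun i hi => ?_
  induction i using Fin.lastCases with
  | last => exact absurd rfl hi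
  | cast i =>
    rw [Fin.snoc_castSucc]
    exact comp_zero hf i k

theorem vb_ideal (hCB : S_CB) (T : Twelve F g (Fin.snoc (α := fun _ => Fin 3 → ℂ) P p))
    {V : AddValuation S ℕ∞} (hV : IsVb F V) {f : S} (hf : f ∈ idealOf (Set.range P)) :
    ((4 : ℕ) : ℕ∞) ≤ V f := by
  rw [hV]
  intro k
  rcases le_or_gt 4 k with hk | hk
  · rw [Nat.sub_eq_zero_of_le hk, pow_zero]
    exact one_dvd _
  · obtain ⟨a, β, h1, h2⟩ := comp_low hCB T hf hk.le
    have hβ : β = 0 := by
      by_contra hcon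
      have := h2 hcon
      omega
    rw [hβ, C_0, zero_mul, add_zero, mul_comm] at h1
    by_cases h0 : homogeneousComponent k f = 0
    · rw [h0]
      exact dvd_zero _
    · obtain ⟨h3, h4⟩ := hom_fac T.hF (homogeneousComponent_isHomogeneous k f) h1 h0
      have h5 : k = 3 := by omega
      rw [h1, h5]
      exact ⟨a, by norm_num⟩

theorem Frame.wv_ge (A : Frame F q M) {h : S} {d : ℕ} (hh : h.IsHomogeneous d) (hd : 4 ≤ d)
    (h0 : d = 4 → eval q h = 0) : ((5 : ℕ) : ℕ∞) ≤ wv ![3, 2, 1] (sub M⁻¹ h) := by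
  rw [le_wv]
  intro m hm
  have h2 := hom_deg (sub_hom M⁻¹ hh) hm
  simp only [wt, Matrix.cons_val_zero, Matrix.cons_val_one, Matrix.cons_val]
  by_cases h4 : d = 4
  · have h1 := A.supp_zero hh (h0 h4) hm
    omega
  · omega

theorem tan_ideal (hCB : S_CB) (T : Twelve F g (Fin.snoc (α := fun _ => Fin 3 → ℂ) P p))
    (A : Frame F p M) {f : S} (hf : f ∈ idealOf (Set.range P)) :
    ((5 : ℕ) : ℕ∞) ≤ wv ![3, 2, 1] (sub M⁻¹ f) := by
  refine le_wv_comp' fun k => ?_
  rw [comp_sub]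
  rcases le_or_gt k 4 with hk | hk
  · obtain ⟨a, β, h1, h2⟩ := comp_low hCB T hf hk
    rw [h1, map_add, map_mul, map_mul]
    apply (wv _).map_le_add
    · rw [(wv _).map_mul, A.wvF]
      exact le_add_self
    · by_cases hβ : β = 0
      · rw [hβ, C_0, map_zero, zero_mul, (wv _).map_zero]
        exact le_top
      · rw [(wv _).map_mul]
        refine le_trans (A.wv_ge T.hg le_rfl fun _ => ?_) le_add_self
        have := T.zerog (Fin.last 11)
        rwa [Fin.snoc_last] at this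
  · exact A.wv_ge (homogeneousComponent_isHomogeneous k f) (by omega) (fun h => by omega)

end Pool.Agent.H840.MX
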