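import Pool.Agent.H840.MX.Lower
import Pool.Agent.H840.MX.Upper

/-! The multiplier ideals and the jumping numbers, from the lemmas. -/

set_option autoImplicit false

namespace Pool.Agent.H840.MX

open MvPolynomial Pool.Agent.T2H40.MI

variable {F g g5 : S} {P : Fin 11 → Fin 3 → ℂ} {p q : Fin 3 → ℂ} {M : Matrix (Fin 3) (Fin 3) ℂ}

/-- the data of the proof -/
structure Data (F g g5 : S) (P : Fin 11 → Fin 3 → ℂ) (p : Fin 3 → ℂ) (V : AddValuation S ℕ∞)
    (M : Matrix (Fin 3) (Fin 3) ℂ) : Prop where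
  cubic : SmoothCubic F
  T : Twelve F g (Fin.snoc (α := fun _ => Fin 3 → ℂ) P p)
  h5 : g5.IsHomogeneous 5
  h5P : ∀ i, eval (P i) g5 = 0
  h5p : eval p g5 ≠ 0
  isVb : IsVb F V
  Vdiv : IsDivisorial V
  Vjac : ∀ p : Fin 3 → S, V (p 0) + V (p 1) + V (p 2) ≤ 4 + V (jac p)
  frame : Frame F p M

variable {V : AddValuation S ℕ∞}

theorem Data.hPF (D : Data F g g5 P p V M) (i : Fin 11) : eval (P i) F = 0 := by
  have := D.T.zeroF (Fin.castSucc i)
  rwa [Fin.snoc_castSucc] at this

theorem Data.hPg (D : Data F g g5 P p V M) (i : Fin 11) : eval (P i) g = 0 := by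
  have := D.T.zerog (Fin.castSucc i)
  rwa [Fin.snoc_castSucc] at this

theorem Data.hP0 (D : Data F g g5 P p V M) (i : Fin 11) : P i ≠ 0 := by
  have := D.T.ne (Fin.castSucc i)
  rwa [Fin.snoc_castSucc] at this

theorem Data.hpg (D : Data F g g5 P p V M) : eval p g = 0 := by
  have := D.T.zerog (Fin.last 11)
  rwa [Fin.snoc_last] at this

theorem lower (hVN : S_VN) (hTRV : S_TRV) (hNOE : S_NOE) (D : Data F g g5 P p V M) {c : ℝ}
    (hc : 0 < c) {u : S} (hu : u ∈ Jset F P p c) :
    u ∈ multiplierIdeal (idealOf (Set.range P)) c := by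
  classical
  by_cases hu0 : u = 0
  · exact Or.inl hu0
  refine Or.inr fun v hv => ?_
  obtain ⟨k, hk, hmin⟩ := Finset.exists_min_image (Finset.range (u.totalDegree + 1))
    (fun k => v (homogeneousComponent k u)) ⟨0, by simp⟩
  have hge : v (homogeneousComponent k u) ≤ v u := by
    conv_rhs => rw [← sum_homogeneousComponent u]
    exact v.map_le_sum fun i hi => hmin i hi
  have hne : homogeneousComponent k u ≠ 0 := by
    intro h0
    rw [h0, v.map_zero, top_le_iff] at hge
    exact hv.finite u hu0 hge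
  have H : HCond F P p c k (homogeneousComponent k u) := by
    refine ⟨homogeneousComponent_isHomogeneous k u, hne, ?_, ?_, ?_⟩
    · exact (D.isVb _ u).1 ((mem_cubic_iff D.T.hF D.isVb).1 hu.1) k
    · intro i M' A
      rw [← comp_sub]
      exact le_wv_comp (pt_pow A.det A.hq A.h0q A.h1 _ (hu.2.1 i)) k
    · intro M' A
      rw [← comp_sub]
      exact le_wv_comp ((mem_tangent_iff A.det A.hq A.h0 A.h0q A.h1).1 hu.2.2) k
  obtain ⟨a, ha, f, hf, hf0, hlt⟩ :=
    lower_hom hVN hTRV hNOE D.cubic D.T D.h5 D.h5P D.h5p hc H hv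
  refine ⟨a, ha, f, hf, hf0, lt_of_lt_of_le hlt ?_⟩
  have h1 : (v (homogeneousComponent k u)).toNat ≤ (v u).toNat :=
    ENat.toNat_le_toNat hge (hv.finite u hu0)
  have h2 : ((v (homogeneousComponent k u)).toNat : ℝ) ≤ (v u).toNat := by exact_mod_cast h1
  linarith

theorem upper (hCB : S_CB) (D : Data F g g5 P p V M) {c : ℝ}
    (hc : 0 < c) {u : S} (hu : u ∈ multiplierIdeal (idealOf (Set.range P)) c) :
    u ∈ Jset F P p c := by
  by_cases hu0 : u = 0
  · subst hu0
    exact ⟨Ideal.zero_mem _, fun i => Ideal.zero_mem _, Ideal.zero_mem _⟩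
  have hfl : ∀ (a b K : ℕ), (a : ℝ) * c < K + (b + 1 : ℕ) → ⌊a * c⌋₊ - b ≤ K := by
    intro a b K h
    have h1 := Nat.floor_le (by positivity : (0 : ℝ) ≤ a * c)
    have h2 : (⌊a * c⌋₊ : ℝ) < ((K + (b + 1) : ℕ) : ℝ) := by
      push_cast at h ⊢
      linarith
    have h3 : ⌊a * c⌋₊ < K + (b + 1) := by exact_mod_cast h2
    omega
  refine ⟨?_, fun i => ?_, ?_⟩
  · obtain ⟨K, hK, hlt⟩ := val_of_mem D.Vdiv (A := 4) (N := 4)
      (fun a ha => logDisc_le D.Vdiv.finite (by exact_mod_cast D.Vjac) ha)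
      (fun f hf => vb_ideal hCB D.T D.isVb hf) hc hu hu0
    rw [mem_cubic_iff D.T.hF D.isVb, hK]
    refine Nat.cast_le.2 ?_
    have := hfl 4 3 K (by push_cast at hlt ⊢; linarith)
    exact_mod_cast this
  · obtain ⟨M', A⟩ := exists_Frame D.cubic (D.hP0 i) (D.hPF i)
    obtain ⟨K, hK, hlt⟩ := val_of_mem (divisorial_pt A.det) (A := 2) (N := 1)
      (fun a ha => by
        have := logDisc_upper (det_inv_ne A.det) (fun f hf => inv_ne A.det hf) ha
        simpa using this)
      (fun f hf => by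
        rw [comap_val, Nat.cast_one]
        exact pt_one A.det A.hq A.h0q A.h1
          (idealOf_mono (Set.singleton_subset_iff.2 (Set.mem_range_self i)) hf)) hc hu hu0
    rw [comap_val] at hK
    apply mem_pow A.det A.h0q A.h1
    rw [hK]
    refine Nat.cast_le.2 ?_
    have := hfl 1 1 K (by push_cast at hlt ⊢; linarith)
    simpa using this
  · have A := D.frame
    obtain ⟨K, hK, hlt⟩ := val_of_mem (divisorial_pos (w := ![3, 2, 1]) A.det (by
        intro i
        fin_cases i <;> simp)) (A := 6) (N := 5)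
      (fun a ha => by
        have := logDisc_upper (det_inv_ne A.det) (fun f hf => inv_ne A.det hf) ha
        simpa using this)
      (fun f hf => by
        rw [comap_val]
        exact tan_ideal hCB D.T A hf) hc hu hu0
    rw [comap_val] at hK
    rw [mem_tangent_iff A.det A.hq A.h0 A.h0q A.h1, hK]
    refine Nat.cast_le.2 ?_
    have := hfl 5 5 K (by push_cast at hlt ⊢; linarith)
    exact_mod_cast this

theorem Frame.wvg (hTRV : S_TRV) (T : Twelve F g (Fin.snoc (α := fun _ => Fin 3 → ℂ) P p))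
    (A : Frame F p M) : wv ![3, 2, 1] (sub M⁻¹ g) = 5 := by
  have hpg : eval p g = 0 := by
    have := T.zerog (Fin.last 11)
    rwa [Fin.snoc_last] at this
  apply le_antisymm
  · have hc : coeff (Finsupp.single 2 3 + Finsupp.single 1 1) (sub M⁻¹ g) ≠ 0 := by
      intro h0
      have h1 := coeff_axis (d := 3) (sub_hom M⁻¹ T.hg) 1 (by decide) (M 2 ⬝ᵥ p)
      rw [h0, zero_mul, ← A.mulVec] at h1
      have h2 := grad_frame A.det g p
      obtain ⟨y, hy⟩ : ∃ y, y = grad (sub M⁻¹ g) (Matrix.mulVec M p) := ⟨_, rfl⟩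
      rw [← hy] at h2
      have hy1 : y 1 = 0 := by
        rw [hy]
        exact h1
      have h3 : grad g p = y 0 • M 0 + y 2 • M 2 := by
        rw [h2]
        funext j
        simp [Matrix.vecMul, dotProduct, Fin.sum_univ_three, hy1]
      have h4 : y 2 = 0 := by
        have h5 := euler T.hg p
        rw [hpg, mul_zero, h3, add_dotProduct, smul_dotProduct, smul_dotProduct, A.h0q,
          smul_zero, zero_add, smul_eq_mul] at h5
        exact (mul_eq_zero.1 h5).resolve_right A.h2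
      rw [h4, zero_smul, add_zero] at h3
      have h6 := (hTRV F g _ T).2 (Fin.last 11) (M 2) (by
        rw [Fin.snoc_last]
        exact A.h2)
      rw [Fin.snoc_last, h3, A.h0] at h6
      apply h6
      simp [Matrix.det_fin_three]
      ring
    refine le_trans (wv_le (mem_support_iff.2 hc)) ?_
    simp [wt]
  · have := A.wv_ge T.hg le_rfl fun _ => hpg
    exact_mod_cast this

theorem Data.w5 (D : Data F g g5 P p V M) : wv ![3, 2, 1] (sub M⁻¹ g5) = 5 := by
  have A := D.frame
  apply le_antisymm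
  · have hc : coeff (Finsupp.single 2 5) (sub M⁻¹ g5) ≠ 0 := by
      intro h0
      have h1 := eval_axis (sub_hom M⁻¹ D.h5) (M 2 ⬝ᵥ p)
      rw [h0, zero_mul, ← A.mulVec, ← eval_sub, sub_inv A.det] at h1
      exact D.h5p h1
    refine le_trans (wv_le (mem_support_iff.2 hc)) ?_
    simp [wt]
  · have := A.wv_ge D.h5 (by norm_num) (by norm_num)
    exact_mod_cast this

theorem jumping (hVN : S_VN) (hTRV : S_TRV) (hNOE : S_NOE) (hCB : S_CB) (hJ : S_JMP)
    (D : Data F g g5 P p V M) : jumpingNumbers (idealOf (Set.range P)) =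
      {c : ℝ | 1 ≤ c ∧ ∃ n : ℕ, 4 * c = n} ∪ {c : ℝ | 11 / 5 ≤ c ∧ ∃ n : ℕ, 5 * c = n} := by
  have A := D.frame
  have heq : ∀ c : ℝ, 0 < c → multiplierIdeal (idealOf (Set.range P)) c = Jset F P p c :=
    fun c hc => Set.Subset.antisymm (fun u hu => upper hCB D hc hu)
      (fun u hu => lower hVN hTRV hNOE D hc hu)
  rw [← hJ F g g5 (lin (M 2)) P p ((wv ![3, 2, 1]).comap (sub M⁻¹ : S →+* S))
    (fun n u => mem_tangent_iff A.det A.hq A.h0 A.h0q A.h1) ?_ D.T.irr.prime D.T.ndvd ?_ ?_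
    (lin_hom _) D.T.hg D.h5 ?_ ?_ ?_ ?_ ?_ ?_ ?_]
  · ext c
    constructor
    · rintro ⟨hc, h⟩
      refine ⟨hc, fun c' hc' hlt he => h c' hc' hlt ?_⟩
      rw [heq c hc, heq c' hc', he]
    · rintro ⟨hc, h⟩
      refine ⟨hc, fun c' hc' hlt he => h c' hc' hlt ?_⟩
      rw [← heq c hc, ← heq c' hc', he]
  · intro n u hu hu'
    have h1 := (D.isVb _ u).1 ((mem_cubic_iff D.T.hF D.isVb).1 hu') n
    rw [homogeneousComponent_eq_self hu] at h1
    simpa using h1
  · rintro ⟨a, ha⟩
    apply D.h5p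
    rw [ha, map_mul, A.zero, zero_mul]
  · rintro ⟨a, ha⟩
    apply A.h2
    rw [← eval_lin, ha, map_mul, A.zero, zero_mul]
  · rw [comap_val, inv_lin A.det, wv_X]
    rfl
  · rw [comap_val]
    exact A.wvg hTRV D.T
  · rw [comap_val]
    exact D.w5
  · rw [comap_val]
    exact A.wvF
  · intro i
    rw [comap_val, sub_X, ← Nat.cast_one]
    refine le_wv_lin fun j _ => ?_
    fin_cases j <;> simp
  · intro i
    exact mem_idealOf_hom D.T.hg (by
      rintro _ rfl
      exact D.hPg i)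
  · intro i
    exact mem_idealOf_hom D.h5 (by
      rintro _ rfl
      exact D.h5P i)

end Pool.Agent.H840.MX
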