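import Pool.Agent.H840.MX.Defs
import Pool.Graph.R_pool_sql_team_seeded_707910d6.T2H40.MI.Lower

/-!
# Statements of the lemmas for the theorem on eleven points of a cubic

Each `S_XXX` below is a proposition to be proved as `theorem XXX : S_XXX`.  The comments give the
proofs on paper.  `S = MvPolynomial (Fin 3) ℂ`, `lin r = ∑ r_i X_i`.
-/

set_option autoImplicit false

namespace Pool.Agent.H840.MX

open MvPolynomial Pool.Agent.T2H40.MI

/-- A cubic form `F`, a quartic form `g`, and twelve different common zeros. -/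
structure Twelve (F g : S) (Q : Fin 12 → Fin 3 → ℂ) : Prop where
  hF : F.IsHomogeneous 3
  hg : g.IsHomogeneous 4
  irr : Irreducible F
  ndvd : ¬ F ∣ g
  ne : ∀ i, Q i ≠ 0
  diff : ∀ i j, i ≠ j → ∀ t : ℂ, Q i ≠ t • Q j
  zeroF : ∀ i, eval (Q i) F = 0
  zerog : ∀ i, eval (Q i) g = 0

/-- A smooth plane cubic is irreducible.

Proof. If `F = A B` with non-units `A`, `B`, then `A` and `B` are homogeneous (factors of a
homogeneous polynomial; alternatively use the lowest and the highest components), so one of them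
is a linear form `L = lin r`, `r ≠ 0`, and the other one is a quadratic form `B`. A quadratic form
has a zero `q ≠ 0` on the plane `r ⬝ᵥ q = 0` (parametrize it by `s a + t b`; the form
`B (s a + t b)` in `s, t` has a nonzero zero since `ℂ` is algebraically closed). Then `F` and all
partial derivatives of `F = L B` vanish at `q`. (`F ≠ 0` and `F` is not a unit: smoothness.) -/
def S_IRR : Prop := ∀ F : S, SmoothCubic F → Irreducible F

/-- Nullstellensatz (`MvPolynomial.vanishingIdeal_zeroLocus_eq_radical`), the zero locus of `A` is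
contained in `{0}`, so each `X i` is in the radical; take the maximum of the exponents. -/
def S_NUL : Prop := ∀ A : Set S, (∀ q : Fin 3 → ℂ, q ≠ 0 → ∃ h ∈ A, eval q h ≠ 0) →
  ∃ N : ℕ, ∀ i, (X i : S) ^ N ∈ Ideal.span A

/-- Homogeneous Nullstellensatz for a valuation: forms `h` with `v h > n deg h`, where `n` is the
minimum of the `v (X i)`, have a common zero.

Proof. Otherwise by `S_NUL` `X i ^ N = ∑ a_j h_j`, where `v (X i) = n`, `h_j ∈ A`; take the
homogeneous component of degree `N`: `X i ^ N = ∑ (a_j)_{N - d_j} h_j` (the terms with `d_j > N` are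
zero), and `v ((a_j)_{N - d_j}) ≥ (N - d_j) n` (`hom_le` in the library file `MI/Lower.lean` with
`ℓ = 1`), so `v (X i ^ N) > N n`. Contradiction. -/
def S_VN : Prop := ∀ (v : AddValuation S ℕ∞) (n : ℕ), (∀ i, (n : ℕ∞) ≤ v (X i)) →
  (∃ i, v (X i) = n) → ∀ A : Set S,
    (∀ h ∈ A, ∃ d, h.IsHomogeneous d ∧ ((d * n : ℕ) : ℕ∞) < v h) →
    ∃ q : Fin 3 → ℂ, q ≠ 0 ∧ ∀ h ∈ A, eval q h = 0

/-- A linear form without a common zero with `F` and `g` is a nonzerodivisor modulo `(F, g)`.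

Proof. By a linear change of coordinates (`sub M`, `sub_inv`, `inv_sub` in the library file
`MI/Coord.lean`) assume `lin r = X 2`. Put `X 2 = 0`: `0 = a₀ F₀ + b₀ g₀` in `ℂ[x, y]`, and the binary
forms `F₀`, `g₀` have no common zero except `0`. They have no common factor: a common irreducible
factor `q` would have (Nullstellensatz) zero set contained in `{0}`, so `q ∣ x ^ N` and `q ∣ y ^ N`, so
`q` is a unit. So `F₀ ∣ b₀`, `b₀ = - c F₀`, `a₀ = c g₀` and `a = c g + X 2 a'`, `b = - c F + X 2 b'`,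
`X 2 h = X 2 (a' F + b' g)`. -/
def S_D4 : Prop := ∀ (F g : S) (r : Fin 3 → ℂ), F.IsHomogeneous 3 → g.IsHomogeneous 4 → r ≠ 0 →
  (∀ q : Fin 3 → ℂ, q ≠ 0 → eval q F = 0 → eval q g = 0 → r ⬝ᵥ q ≠ 0) →
  ∀ h a b : S, lin r * h = a * F + b * g → ∃ a' b' : S, h = a' * F + b' * g

/-- Forms of degree at least eleven which vanish at the twelve points are in `(F, g)`.

Proof. A count of dimensions. Let `S_d` be the space of the forms of degree `d`
(`homogeneousSubmodule (Fin 3) ℂ d`), its dimension is `(d + 2).choose 2`. (1) The evaluation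
`S_d → ℂ ^ 12` at the points is surjective for `d ≥ 11`: take the product of eleven linear forms
`L_j`, `j ≠ i`, `L_j (Q j) = 0`, `L_j (Q i) ≠ 0`, and the power of a linear form which does not vanish
at `Q i`. So its kernel has dimension `(d + 2).choose 2 - 12`. (2) The kernel of
`S_{d - 3} × S_{d - 4} → S_d`, `(a, b) ↦ a F + b g` is the set of the pairs `(c g, - c F)`,
`c ∈ S_{d - 7}` (`F` is prime, `F ∤ g`). So the image has dimension
`(d - 1).choose 2 + (d - 2).choose 2 - (d - 5).choose 2 = (d + 2).choose 2 - 12`. (3) The image is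
contained in the kernel of the evaluation, so they are equal. -/
def S_BEZ : Prop := ∀ (F g : S) (Q : Fin 12 → Fin 3 → ℂ), Twelve F g Q → ∀ (d : ℕ) (h : S),
  11 ≤ d → h.IsHomogeneous d → (∀ i, eval (Q i) h = 0) → ∃ a b : S, h = a * F + b * g

/-- There are no other common zeros, and the two curves are transversal.

Proof (assume `S_BEZ`). (1) If `q` is a common zero which is not proportional to any `Q i`, then the
product of twelve linear forms `L_i`, `L_i (Q i) = 0`, `L_i (q) ≠ 0` is in `(F, g)` by `S_BEZ`, so it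
vanishes at `q`. Contradiction. (2) Let `l` be any vector with `l ⬝ᵥ Q i = 0`. By `S_BEZ` (degree 12)
`h = lin l * ∏_{j ≠ i} L_j = a F + b g` where `L_j (Q j) = 0`, `L_j (Q i) ≠ 0`, and the gradient at
`Q i` is `(∏ L_j (Q i)) l = a (Q i) grad F (Q i) + b (Q i) grad g (Q i)`. So all `l ⊥ Q i` are in the span
of the two gradients. If the determinant is zero, then there is `x ≠ 0` orthogonal to `r`,
`grad F (Q i)`, `grad g (Q i)`, so orthogonal to all `l ⊥ Q i`, so `x = t • Q i`, `r ⬝ᵥ Q i = 0`. -/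
def S_TRV : Prop := ∀ (F g : S) (Q : Fin 12 → Fin 3 → ℂ), Twelve F g Q →
  (∀ q : Fin 3 → ℂ, q ≠ 0 → eval q F = 0 → eval q g = 0 → ∃ i, ∃ t : ℂ, q = t • Q i) ∧
  ∀ (i : Fin 12) (r : Fin 3 → ℂ), r ⬝ᵥ Q i ≠ 0 →
    (Matrix.of ![r, grad F (Q i), grad g (Q i)]).det ≠ 0

/-- Forms which vanish at the twelve points are in `(F, g)` (Max Noether).

Proof (assume `S_BEZ`, `S_TRV`, `S_D4`). Choose `r` with `r ⬝ᵥ Q i ≠ 0` for all `i` (twelve nonzero
vectors; for example by the polynomial `∏ i, lin (Q i) ≠ 0`, `MvPolynomial.funext`). Then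
`lin r ^ 11 * h` has degree at least eleven, so it is in `(F, g)` by `S_BEZ`, and `h` is in `(F, g)` by
`S_D4`, eleven times (its hypothesis holds by the first part of `S_TRV`). Finally replace `a`, `b` by
their homogeneous components of degree `d - 3`, `d - 4` (zero if `d < 3`, `d < 4`), i.e. take the
component of degree `d` of `h = a F + b g`. -/
def S_NOE : Prop := ∀ (F g : S) (Q : Fin 12 → Fin 3 → ℂ), Twelve F g Q → ∀ (d : ℕ) (h : S),
  h.IsHomogeneous d → (∀ i, eval (Q i) h = 0) → ∃ a b : S, h = a * F + b * g ∧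
    a.IsHomogeneous (d - 3) ∧ (a ≠ 0 → 3 ≤ d) ∧ b.IsHomogeneous (d - 4) ∧ (b ≠ 0 → 4 ≤ d)

/-- Cayley-Bacharach: forms of degree at most four through the first eleven points.

Proof (assume `S_NOE`). Let `L_1`, `L_2` be two linear forms which vanish at the last point,
not proportional. `h L_j` vanishes at all twelve points, so `h L_j = a_j F + b_j g` with `b_j`
homogeneous of degree `d + 1 - 4` (zero for `d ≤ 2`). `F` is prime and does not divide nonzero forms
of degree `< 3`. `d ≤ 2`: `F ∣ h L_1`, so `F ∣ h`. `d = 3`: `b_1 = C β_1`, `b_2 = C β_2`. If both are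
zero then `F ∣ h L_1`, `F ∣ h`. If not, `h (β_2 L_1 - β_1 L_2)` is a multiple of `F`, so `F ∣ h`.
`d = 4`: `g (b_1 L_2 - b_2 L_1)` is a multiple of `F`, so `b_1 L_2 = b_2 L_1` (degree 2), so
`b_1 = β L_1` for a constant `β` (`L_1 ∤ L_2`), and `L_1 (h - β g)` is a multiple of `F`. -/
def S_CB : Prop := ∀ (F g : S) (Q : Fin 12 → Fin 3 → ℂ), Twelve F g Q → ∀ (d : ℕ) (h : S),
  d ≤ 4 → h.IsHomogeneous d → (∀ i, i ≠ Fin.last 11 → eval (Q i) h = 0) →
    ∃ (a : S) (β : ℂ), h = a * F + C β * g ∧ (β ≠ 0 → d = 4)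

/-- A quintic through the first eleven points but not through the last one.

Proof (assume `S_NOE`). The space of the quintic forms has dimension `21`, so those vanishing at the
first eleven points form a space of dimension at least ten. If all of them vanish at the last
point, then by `S_NOE` this space is contained in the image of `S_2 × S_1`, `(a, b) ↦ a F + b g`, of
dimension at most `6 + 3 = 9`. Contradiction. -/
def S_G5 : Prop := ∀ (F g : S) (Q : Fin 12 → Fin 3 → ℂ), Twelve F g Q →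
  ∃ h : S, h.IsHomogeneous 5 ∧ (∀ i, i ≠ Fin.last 11 → eval (Q i) h = 0) ∧
    eval (Q (Fin.last 11)) h ≠ 0

/-- The quartic `g`.

Proof. `F X_i` is a quartic form in the ideal of the eleven points, so it vanishes at `p` (`env` for
`q = p`), so `F (p) = 0`. Choose a vector `r` with `r ⬝ᵥ p ≠ 0` and `r ⬝ᵥ P i ≠ 0` for all `i`, and a
zero `q ≠ 0` of `F` with `r ⬝ᵥ q = 0` (`F` on the plane spanned by two vectors `a`, `b` is a binary
cubic form, `ℂ` is algebraically closed). Then `q` is not proportional to any of the twelve points,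
so by `env` some quartic form `g` in the ideal of the eleven points has `g (q) ≠ 0`. So `F ∤ g`, and
`g (p) = 0` by `env`. -/
def S_GEX : Prop := ∀ (F : S) (P : Fin 11 → Fin 3 → ℂ) (p : Fin 3 → ℂ), IsGeneral F P p →
  Irreducible F → ∃ g : S, Twelve F g (Fin.snoc (α := fun _ => Fin 3 → ℂ) P p)

/-- `v` is the valuation with `v (X i) = 1` and `v F = 4`, in terms of the homogeneous components:
`v f ≥ n` iff `F ^ (n - k)` divides the component of degree `k` for all `k`. -/
def IsVb (F : S) (v : AddValuation S ℕ∞) : Prop :=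
  ∀ (n : ℕ) (f : S), (n : ℕ∞) ≤ v f ↔ ∀ k, F ^ (n - k) ∣ homogeneousComponent k f

/-- The valuation exists.

Proof. `v f = ⨅ k, (k + emultiplicity F (homogeneousComponent k f))`, via `AddValuation.of`.
`v 0 = ⊤`, `v 1 = 0` (`F` is not a unit), `v (f + g) ≥ min` is clear. `v (f g) = v f + v g`: `≥` is
clear from the components of the product, `(f g)_k = ∑ f_i g_{k - i}`. `≤`: for `f, g ≠ 0` let `k` be
the smallest index with `k + ord_F f_k = v f = n`, and `l` the same for `g`, `v g = m`. In the component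
`(f g)_{k + l} = f_k g_l + ∑_{i ≠ k} f_i g_{k + l - i}` the first term is not divisible by
`F ^ (n + m - k - l + 1)` (`F` is prime, `emultiplicity_mul`), but the other ones are. -/
def S_VB1 : Prop := ∀ F : S, F.IsHomogeneous 3 → Irreducible F → ∃ v, IsVb F v

/-- It is divisorial.

Proof. `finite`, `nontrivial` (`v (X 0) = 1`) are clear. `residue`: `g = x ^ 4`, `f₁ = x ^ 3 y`,
`f₂ = F`, all of value 4 (`x = X 0`, `y = X 1`). For `H = ∑ c_{ijl} X_0 ^ i X_1 ^ j X_2 ^ l` a nonzero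
form of degree `D` the element is `∑ c_{ijl} x ^ (4 i + 3 j) y ^ j F ^ l`; its component of degree
`4 D - l` is `F ^ l B_l`, where `B_l = ∑_{i + j = D - l} c_{ijl} x ^ (4 i + 3 j) y ^ j` is a polynomial
in `x, y` only, and `B_l ≠ 0` for some `l`. `F` does not divide a nonzero polynomial `B` in `x, y`:
otherwise (degree in `X 2`, `degreeOf_mul_eq`) `F` does not contain the variable `X 2`, and then `F`
and all partial derivatives vanish at the point `(0, 0, 1)`, so `F` is not smooth. -/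
def S_VB2 : Prop := ∀ (F : S) (v : AddValuation S ℕ∞), SmoothCubic F → Irreducible F → IsVb F v →
  IsDivisorial v

/-- An inequality for the Jacobian determinant (the log discrepancy of `v` is at most four).

Proof. `v h ≥ n` iff `h` is a finite sum of products `F ^ m a`, `a` homogeneous of degree `e`,
`4 m + e ≥ n`. (`⇒`: the components `h_k = F ^ (n - k) a`, `a` of degree `k - 3 (n - k)` (if
`h_k ≠ 0` and `k ≤ n`, then `3 (n - k) ≤ k`), `4 (n - k) + k - 3 (n - k) = n`; `⇐`: `v F = 4`,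
`v (X i) ≥ 1`.) `jac` is additive in each of the three arguments, so it is enough to show
`v (jac (F ^ m_0 a_0, F ^ m_1 a_1, F ^ m_2 a_2)) + 4 ≥ ∑ (4 m_i + e_i)`. Here
`∂_i (F ^ m a) = F ^ m ∂_i a + m F ^ (m - 1) a ∂_i F`, so the determinant is a sum of
`F ^ (m_0 + m_1 + m_2) jac (a_0, a_1, a_2)` (the Jacobian determinant of the `a_i` is homogeneous of
degree `∑ e_i - 3`, or zero), of terms `m_0 F ^ (∑ m_i - 1) a_0 jac (F, a_1, a_2)` (`jac (F, a_1, a_2)` is
homogeneous of degree `e_1 + e_2`), and the terms with two or three columns `∂ F` vanish. -/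
def S_VB3 : Prop := ∀ (F : S) (v : AddValuation S ℕ∞), F.IsHomogeneous 3 → Irreducible F →
  IsVb F v → ∀ p : Fin 3 → S, v (p 0) + v (p 1) + v (p 2) ≤ 4 + v (jac p)

/-- the sets which we compare with the multiplier ideals -/
def Jset (F : S) (P : Fin 11 → Fin 3 → ℂ) (p : Fin 3 → ℂ) (c : ℝ) : Set S :=
  {u | u ∈ cubicIdeal F (⌊4 * c⌋₊ - 3) ∧ (∀ i, u ∈ idealOf {P i} ^ (⌊c⌋₊ - 1)) ∧
    u ∈ tangentIdeal F p (⌊5 * c⌋₊ - 5)}

/-- The jumping numbers, from the description of the ideals.  `w` is the valuation with the weights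
`3, 2, 1` at the point `p`.

Proof. `⊇`, `4 c ∈ ℕ`: `c = 1 + σ / 4`, `σ = 4 μ + r`, `r < 4`, `u = g ^ μ l ^ r` is homogeneous of
degree `σ` and is not in `cubicIdeal F (σ + 1)` (`F ∤ u`), so `u ∉ Jset c`. But `u ∈ Jset c'` for all
`c' < c`: `⌊4 c'⌋ - 3 ≤ σ` and `u ∈ maxIdeal ^ σ ≤ cubicIdeal F σ`; `⌊c'⌋ - 1 ≤ μ` and `g ^ μ ∈
idealOf {P i} ^ μ`; `⌊5 c'⌋ - 5 ≤ 5 μ + r = w u` (`5 c' < 5 + 5 μ + 5 r / 4`).
`⊇`, `5 c ∈ ℕ`, `c ≥ 11 / 5`: `c = 1 + σ / 5`, `σ ≥ 6`, `σ = 5 μ + ρ`; if `ρ = 0` then `c ∈ ℕ` and we are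
in the first case. Otherwise `1 ≤ ρ ≤ 4`, `μ ≥ 1`, `u = g ^ (μ - 1) g5 l ^ (ρ - 1)`, `w u = σ - 1`, so
`u ∉ Jset c`. For `c' < c`: `⌊5 c'⌋ - 5 ≤ σ - 1`; `u` is homogeneous of degree `4 μ + ρ` and
`4 c' < 4 + 4 μ + 4 ρ / 5`, so `⌊4 c'⌋ - 3 ≤ 4 μ + ρ`; `⌊c'⌋ - 1 ≤ μ`.
`⊆`: for `c < 1` all `u` are in `Jset c` and in `Jset (c / 2)`. Let `c ≥ 1`, `4 c ∉ ℕ` (so `c ∉ ℕ`), and
not (`c ≥ 11 / 5` and `5 c ∈ ℕ`). Take `c' < c` near `c`, so that `⌊4 c'⌋ = ⌊4 c⌋`, `⌊c'⌋ = ⌊c⌋`, and
`⌊5 c'⌋ = ⌊5 c⌋` if `5 c ∉ ℕ`: then `Jset c = Jset c'`. If `5 c ∈ ℕ`, then `1 < c < 11 / 5` and `c ≠ 2`,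
so `σ = 5 c - 5 ∈ {1, 2, 3, 4}` and `⌊4 c⌋ - 3 = σ`. `cubicIdeal F σ ≤ tangentIdeal F p σ` because `w F = 5`
and `w (X i) ≥ 1`, so the last condition is a consequence of the first one and again
`Jset c = Jset c'` (`⌊5 c'⌋ - 5 ≤ σ`). -/
def S_JMP : Prop := ∀ (F g g5 l : S) (P : Fin 11 → Fin 3 → ℂ) (p : Fin 3 → ℂ)
  (w : AddValuation S ℕ∞),
  (∀ (n : ℕ) (u : S), u ∈ tangentIdeal F p n ↔ (n : ℕ∞) ≤ w u) →
  (∀ (n : ℕ) (u : S), u.IsHomogeneous n → u ∈ cubicIdeal F (n + 1) → F ∣ u) →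
  Prime F → ¬ F ∣ g → ¬ F ∣ g5 → ¬ F ∣ l →
  l.IsHomogeneous 1 → g.IsHomogeneous 4 → g5.IsHomogeneous 5 →
  w l = 1 → w g = 5 → w g5 = 5 → w F = 5 → (∀ i, 1 ≤ w (X i)) →
  (∀ i, g ∈ idealOf {P i}) → (∀ i, g5 ∈ idealOf {P i}) →
  {c : ℝ | 0 < c ∧ ∀ c', 0 < c' → c' < c → Jset F P p c ≠ Jset F P p c'} =
    {c : ℝ | 1 ≤ c ∧ ∃ n : ℕ, 4 * c = n} ∪ {c : ℝ | 11 / 5 ≤ c ∧ ∃ n : ℕ, 5 * c = n}

end Pool.Agent.H840.MX
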