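import Pool.Agent.H840.MX.Stm

/-!
# General position of eleven points on a smooth cubic: statements of the lemmas

Each `S_XXX` below is a proposition to be proved as `theorem XXX : S_XXX`.  The comments give the
proofs on paper.
-/

set_option autoImplicit false

namespace Pool.Agent.H840.MX

open MvPolynomial Pool.Agent.T2H40.MI

/-- A cubic form, a quartic form, and eleven different common zeros, all of them transversal. -/
structure Eleven (F g : S) (P : Fin 11 → Fin 3 → ℂ) : Prop where
  hF : F.IsHomogeneous 3
  hg : g.IsHomogeneous 4
  irr : Irreducible F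
  ndvd : ¬ F ∣ g
  ne : ∀ i, P i ≠ 0
  diff : ∀ i j, i ≠ j → ∀ t : ℂ, P i ≠ t • P j
  zeroF : ∀ i, eval (P i) F = 0
  zerog : ∀ i, eval (P i) g = 0
  trans : ∀ i, ∀ α β : ℂ, α • grad F (P i) + β • grad g (P i) = 0 → α = 0 ∧ β = 0

/-- There is a twelfth common zero.

Proof (assume `S_NUL`, `S_D4`). Suppose that every common zero `q ≠ 0` of `F`, `g` is proportional to
one of the eleven points. (1) Every form `h` which vanishes at the eleven points is in `(F, g)`: let
`J = {a | a h ∈ (F, g)}`, an ideal. Its only common zero is `0`: `F, g ∈ J`, so it remains to find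
`D ∈ J` with `D (P i) ≠ 0` for each `i`. Let `a`, `b` be two linear forms which generate the ideal of the
polynomials vanishing on the line `ℂ (P i)` (so `F`, `g`, `h` are in the ideal `(a, b)`; see `mem_pow`,
`pt_one` in `MI/Coord.lean` with `n = 1`: `f ∈ idealOf {q}` iff `1 ≤ wv ![1, 1, 0] (sub M⁻¹ f)`),
`F = A a + B b`, `g = A' a + B' b`, `D = A B' - A' B`. By Cramer's rule `D a, D b ∈ (F, g)`, so
`D h ∈ (F, g)`. The gradients of `F`, `g` at `P i` are `A (P i) a + B (P i) b`, `A' (P i) a + B' (P i) b`,
so `D (P i) ≠ 0` by transversality. By the Nullstellensatz (`S_NUL`) `X_i ^ N ∈ J` for all `i`. Take a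
linear form `r` with `r ⬝ᵥ P i ≠ 0` for all `i` (`exists_lin` in `Pool/Agent/H967/MX/Noe.lean` is for
twelve points); `lin r ^ (3 N) ∈ (X_0 ^ N, X_1 ^ N, X_2 ^ N) ⊆ J`, so `lin r ^ (3 N) * h ∈ (F, g)`, so
`h ∈ (F, g)` by `S_D4` used `3 N` times. (2) A count of dimensions in degree 11 (as in `S_BEZ`, proved
in `Pool/Agent/H549/MX/Bez.lean`): the forms of degree 11 which vanish at the eleven points have
dimension `≥ 78 - 11 = 67`, but `(F, g)` has dimension `45 + 36 - 15 = 66` in degree 11.
So there is a common zero `p ≠ 0` which is not proportional to any `P i`. -/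
def S_GA : Prop := ∀ (F g : S) (P : Fin 11 → Fin 3 → ℂ), Eleven F g P →
  ∃ p : Fin 3 → ℂ, Twelve F g (Fin.snoc (α := fun _ => Fin 3 → ℂ) P p)

/-- The twelve points are in general position.

Proof (assume `S_TRV`, `S_CB`). `env`: if all quartic forms in the ideal of the eleven points vanish at
`q`, then `g` and all `F X_i` vanish at `q`, so `F (q) = 0`, and `q` is proportional to one of the twelve
points by `S_TRV` (`Fin.lastCases` or `Fin.snoc_castSucc`, `Fin.snoc_last`). Conversely, a quartic form
`h` in the ideal of the eleven points is `a F + β g` by `S_CB`, so it vanishes at `p` (and at `t • p`,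
`t • P i`). -/
def S_GB : Prop := ∀ (F g : S) (P : Fin 11 → Fin 3 → ℂ) (p : Fin 3 → ℂ), SmoothCubic F →
  Twelve F g (Fin.snoc (α := fun _ => Fin 3 → ℂ) P p) → IsGeneral F P p

/-- The set of the `P'` with a quartic as in `Eleven` contains a Zariski neighbourhood of `P`.

Proof (assume `S_TRV`, `S_CB`). Choose three linearly independent vectors `R 0, R 1, R 2` with
`F (R j) ≠ 0` (for example perturb a basis; `F ≠ 0`). For `P'` let `A (P')` be the `15 × 15` matrix whose
rows are the fifteen monomials of degree four evaluated at `P' 0, …, P' 10`, `R 0, R 1, R 2`, and the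
last row is the monomials themselves (as elements of `S`), and `g_{P'} = det A (P')`, a quartic form
whose coefficients are polynomials in the coordinates of `P'`, with `g_{P'} (P' i) = 0`,
`g_{P'} (R j) = 0`. For each `i : Fin 11` choose a coordinate `k i : Fin 3` such that the coordinate
`k i` of the cross product of `grad F (P i)`, `grad g (P i)` is nonzero (`S_TRV`), and let `Φ` be the
product over `i` of the coordinates `k i` of the cross products of `grad F (P' i)` and
`grad g_{P'} (P' i)`, a polynomial in `P'` (it is easiest to construct the generic determinant over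
`MvPolynomial (Fin 11 × Fin 3) ℂ`, or to note that everything is a composition of polynomials).
If `Φ (P') ≠ 0` then `g_{P'} ≠ 0`; so the `P' i` are nonzero and pairwise not proportional (a zero
row or proportional rows otherwise), the intersections are transversal, and `F ∤ g_{P'}`: if
`g_{P'} = F L` then `L` is a linear form which vanishes at the three `R j`, so `L = 0`.
`Φ (P) ≠ 0`: a quartic form which vanishes at the fourteen points `P i`, `R j` is `a F + β g` (`S_CB`),
`a` a linear form, and `a (R j) F (R j) = - β g (R j)`, so these forms are a space of dimension `≤ 1`;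
so the fourteen rows are linearly independent, some `14 × 14` minor is nonzero, so `g_P ≠ 0`;
`g_P = a F + β g` with `β ≠ 0` (`β = 0` implies `a (R j) = 0` for all `j`, so `a = 0`), and the cross
product of `grad F (P i)`, `grad g_P (P i)` is `β` times the cross product of `grad F (P i)` and
`grad g (P i)`. -/
def S_GC : Prop := ∀ (F g : S) (P : Fin 11 → Fin 3 → ℂ) (p : Fin 3 → ℂ),
  Twelve F g (Fin.snoc (α := fun _ => Fin 3 → ℂ) P p) →
  ∃ Φ : MvPolynomial (Fin 11 × Fin 3) ℂ, eval (fun x => P x.1 x.2) Φ ≠ 0 ∧
    ∀ P' : Fin 11 → Fin 3 → ℂ, (∀ i, eval (P' i) F = 0) → eval (fun x => P' x.1 x.2) Φ ≠ 0 →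
      ∃ g' : S, Eleven F g' P'

/-- There are a quartic and twelve points.

Proof (assume `S_TRV`). Choose `O` with `F (O) ≠ 0`, and fifteen pairwise non-proportional linear
forms `lin (r j)`, `r j ⬝ᵥ O = 0`. Let `H = ∑ i, O i * ∂_i F`, a quadratic form, the derivative of `F` in the
direction `O`. A line `r j` is called bad if there is `q ≠ 0` with `r j ⬝ᵥ q = 0`, `F (q) = 0`,
`H (q) = 0`. (1) At most eleven of the lines are bad: points `q` for twelve different bad lines would be
pairwise not proportional (a common point of two of the lines is proportional to `O`, but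
`F (O) ≠ 0`), `F ∤ H ^ 2` (`F` is prime, `H (O) = 3 F (O) ≠ 0`, so `H ≠ 0`, degree), so this is
`Twelve F (H ^ 2) q`, but the gradient of `H ^ 2` vanishes at the zeros of `H`, a contradiction to the
second part of `S_TRV`. (2) On a line `r j` which is not bad, let `b` be a vector with
`r j ⬝ᵥ b = 0`, not proportional to `O`. The polynomial `F (b + x O)` in `x` has degree three (leading
coefficient `F (O)`), its derivative is `H (b + x O)`, so its roots are simple and there are three
different roots `x_1, x_2, x_3`, and `b + x_k O` are three pairwise non-proportional zeros of `F` on the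
line `r j`. (3) Take four good lines; `g` is the product of their equations, and the twelve points are
pairwise not proportional. `F ∤ g` since `F` is prime of degree three. -/
def S_GD : Prop := ∀ F : S, SmoothCubic F → Irreducible F →
  ∃ (g : S) (P : Fin 11 → Fin 3 → ℂ) (p : Fin 3 → ℂ),
    Twelve F g (Fin.snoc (α := fun _ => Fin 3 → ℂ) P p)

end Pool.Agent.H840.MX
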