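import Pool.Agent.H840.MX.Ideal

/-! Valuations: components, log discrepancies, the centre. -/

set_option autoImplicit false

namespace Pool.Agent.H840.MX

open MvPolynomial Pool.Agent.T2H40.MI

theorem comp_sub (B : Matrix (Fin 3) (Fin 3) ℂ) (k : ℕ) (f : S) :
    homogeneousComponent k (sub B f) = sub B (homogeneousComponent k f) := by
  by_cases hk : f.totalDegree < k
  · rw [homogeneousComponent_eq_zero _ _ hk, map_zero]
    conv_lhs => rw [← sum_homogeneousComponent f]
    rw [map_sum, map_sum]
    refine Finset.sum_eq_zero fun i hi => ?_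
    rw [homogeneousComponent_of_mem (n := i) (sub_hom B (homogeneousComponent_isHomogeneous i f)),
      if_neg]
    have := Finset.mem_range.1 hi
    omega
  · conv_lhs => rw [← sum_homogeneousComponent f]
    rw [map_sum, map_sum, Finset.sum_eq_single k]
    · exact homogeneousComponent_eq_self (sub_hom B (homogeneousComponent_isHomogeneous k f))
    · intro i _ hik
      rw [homogeneousComponent_of_mem (n := i)
        (sub_hom B (homogeneousComponent_isHomogeneous i f)), if_neg hik.symm]
    · intro h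
      exact absurd (Finset.mem_range.2 (by omega)) h

theorem le_wv_comp {w : Fin 3 → ℕ} {f : S} {n : ℕ} (h : (n : ℕ∞) ≤ wv w f) (k : ℕ) :
    (n : ℕ∞) ≤ wv w (homogeneousComponent k f) := by
  rw [le_wv] at h ⊢
  intro m hm
  rw [support_homogeneousComponent, Finset.mem_filter] at hm
  exact h m hm.1

theorem le_wv_comp' {w : Fin 3 → ℕ} {f : S} {n : ℕ}
    (h : ∀ k, (n : ℕ∞) ≤ wv w (homogeneousComponent k f)) : (n : ℕ∞) ≤ wv w f := by
  rw [← sum_homogeneousComponent f]
  exact (wv w).map_le_sum fun k _ => h k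

variable {v : AddValuation S ℕ∞}

/-- `n` is the minimum of the values of the linear forms -/
def IsMin (v : AddValuation S ℕ∞) (n : ℕ) : Prop :=
  (∀ i, (n : ℕ∞) ≤ v (X i)) ∧ ∃ i, v (X i) = n

theorem exists_min (hv : IsDivisorial v) : ∃ n, IsMin v n := by
  obtain ⟨i, _, hi⟩ := Finset.exists_min_image (Finset.univ : Finset (Fin 3))
    (fun i => v (X i)) Finset.univ_nonempty
  obtain ⟨n, hn⟩ := fin_val hv (X_ne_zero (R := ℂ) i)
  refine ⟨n, fun j => ?_, i, hn⟩
  rw [← hn]
  exact hi j (Finset.mem_univ j)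

theorem hom_le' {n : ℕ} (h : ∀ i, (n : ℕ∞) ≤ v (X i)) {g : S} {D : ℕ}
    (hg : g.IsHomogeneous D) : ((D * n : ℕ) : ℕ∞) ≤ v g := by
  refine hom_le (ℓ := fun i => Pi.single i 1) ?_ (fun i => ?_) hg
  · have : (Matrix.of fun i => (Pi.single i 1 : Fin 3 → ℂ)) = 1 := by
      ext i j
      rw [Matrix.of_apply, Matrix.one_apply, Pi.single_apply]
      simp only [eq_comm]
    rw [this, Matrix.det_one]
    exact one_ne_zero
  · rw [lin_single]
    exact h i

theorem logDisc_three {n : ℕ} (h : ∀ i, (n : ℕ∞) ≤ v (X i)) : LogDiscGE v (3 * n) := by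
  refine logDisc_lin 1 (by simp) ?_
  have e : ∀ i : Fin 3, lin ((1 : Matrix (Fin 3) (Fin 3) ℂ) i) = X i := by
    intro i
    rw [← lin_single i]
    congr 1
    funext j
    rw [Matrix.one_apply, Pi.single_apply]
    simp only [eq_comm]
  rw [e, e, e]
  refine le_trans (le_of_eq ?_) (add_le_add (add_le_add (h 0) (h 1)) (h 2))
  norm_cast
  ring

/-- Euler's formula -/
theorem euler {f : S} {d : ℕ} (hf : f.IsHomogeneous d) (q : Fin 3 → ℂ) :
    grad f q ⬝ᵥ q = d * eval q f := by
  have h := hf.sum_X_mul_pderiv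
  have h1 := congrArg (eval q) h
  simp only [map_sum, map_mul, eval_X, map_nsmul] at h1
  rw [nsmul_eq_mul] at h1
  rw [← h1]
  simp only [dotProduct, grad]
  refine Finset.sum_congr rfl fun i _ => ?_
  ring

theorem logDisc_F {F : S} (hF : SmoothCubic F) (hVN : S_VN) {n s : ℕ} (hn : IsMin v n)
    (hs : v F = (3 * n + s : ℕ)) : LogDiscGE v (3 * n + s) := by
  classical
  have hd : ∀ i, (pderiv i F).IsHomogeneous 2 := fun i => hF.hom.pderiv
  obtain ⟨i, hi⟩ : ∃ i, v (pderiv i F) = (2 * n : ℕ) := by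
    by_contra hcon
    push Not at hcon
    obtain ⟨q, hq, hq'⟩ := hVN v n hn.1 hn.2 (Set.range fun i => pderiv i F) (by
      rintro _ ⟨i, rfl⟩
      exact ⟨2, hd i, lt_of_le_of_ne (hom_le' hn.1 (hd i)) (hcon i).symm⟩)
    have h1 : ∀ i, eval q (pderiv i F) = 0 := fun i => hq' _ ⟨i, rfl⟩
    have h2 : eval q F = 0 := by
      have h3 := euler hF.hom q
      have h4 : grad F q = 0 := by
        funext i
        exact h1 i
      rw [h4, zero_dotProduct] at h3
      rcases mul_eq_zero.1 h3.symm with h5 | h5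
      · norm_num at h5
      · exact h5
    obtain ⟨i, hi⟩ := hF.smooth q hq h2
    exact hi (h1 i)
  have hF0 : F ≠ 0 := by
    rintro rfl
    rw [v.map_zero] at hs
    exact ENat.top_ne_natCast _ hs
  refine logDisc_one (pderiv i F) (∏ j, if j = i then F else X j)
    (fun j => if j = i then F else X j) ?_ (fun j => ?_) ?_ ?_
  · intro h0
    rw [h0, v.map_zero] at hi
    exact ENat.top_ne_natCast _ hi
  · split_ifs
    · exact hF0
    · exact X_ne_zero _
  · rw [hi, prod_val, ← Finset.add_sum_erase _ _ (Finset.mem_univ i), if_pos rfl, hs]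
    have h3 : ((2 * n : ℕ) : ℕ∞) ≤ ∑ x ∈ Finset.univ.erase i, v (if x = i then F else X x) := by
      have h4 : ∑ x ∈ (Finset.univ : Finset (Fin 3)).erase i, (n : ℕ∞) ≤
          ∑ x ∈ Finset.univ.erase i, v (if x = i then F else X x) := by
        refine Finset.sum_le_sum fun j hj => ?_
        rw [if_neg (Finset.ne_of_mem_erase hj)]
        exact hn.1 j
      refine le_trans (le_of_eq ?_) h4
      rw [Finset.sum_const, Finset.card_erase_of_mem (Finset.mem_univ i), Finset.card_univ,
        Fintype.card_fin, nsmul_eq_mul]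
      push_cast
      rfl
    rw [add_comm]
    exact add_le_add_right h3 _
  · rw [jac_update, mul_comm]

end Pool.Agent.H840.MX
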